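import Pool.Agent.Lib.MP_678664_lc_AC.PlanDefs

/-! # Row EVA -/

open Finset

namespace CliqueDepth

open SmallDepth

private theorem dep_cong_a {Ω : Type} [DecidableEq Ω] {v v' : (Ω → Bool) → Prop} {G : Ω → Bool}
    {Q : Finset Ω} (h : ∀ Z, v (fl G Q Z) = v' (fl G Q Z)) : dep v G Q = dep v' G Q := by
  ext S
  rw [mem_dep, mem_dep]
  simp only [h]

private theorem reach_cong_a {Ω : Type} [DecidableEq Ω] {v v' : ℕ → (Ω → Bool) → Prop}
    {g g' : (Ω → Bool) → Prop} {A : Finset ℕ} {b : Prop} {G : Ω → Bool} {Q : Finset Ω}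
    (h : ∀ j Z, v j (fl G Q Z) = v' j (fl G Q Z)) (hg : ∀ Z, g (fl G Q Z) = g' (fl G Q Z))
    {n : ℕ} {U : Finset Ω} (hR : Reach v g A b G Q n U) : Reach v' g' A b G Q n U := by
  induction hR with
  | zero => exact Reach.zero
  | step n U Z hr hZ hl ih =>
    have h1 : fst v A b (fl G Q Z) = fst v' A b (fl G Q Z) := by
      unfold fst
      simp only [h]
    rw [h1] at hl ⊢
    rw [dep_cong_a (h _)]
    rw [dep_cong_a hg] at hZ
    exact Reach.step n U Z ih hZ hl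

/-- Row EVA: the event depends only on the inputs for the assignments `fl G Q Z`. -/
theorem ev_congr_a {ι Ω : Type} [DecidableEq Ω] {C : Circuit ι} {a a' : (Ω → Bool) → ι → Prop}
    {K : ℕ} {G : Ω → Bool} {Q : Finset Ω} (h : ∀ Z ⊆ Q, a (fl G Q Z) = a' (fl G Q Z)) (i : ℕ) :
    Ev C a K G Q i ↔ Ev C a' K G Q i := by
  have h0 : ∀ Z, a (fl G Q Z) = a' (fl G Q Z) := fun Z => by
    rw [← fl_inter]
    exact h _ inter_subset_right
  have h1 : ∀ j Z, gv C a j (fl G Q Z) = gv C a' j (fl G Q Z) := fun j Z => by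
    unfold gv
    rw [h0]
  have h2 : ∀ j Z, gv C a' j (fl G Q Z) = gv C a j (fl G Q Z) := fun j Z => (h1 j Z).symm
  rcases hg : C i with v | b | S | S | ⟨r, u, g⟩ <;> unfold Ev <;> rw [hg]
  · constructor
    · rintro ⟨n, hn, hR⟩; exact ⟨n, hn, reach_cong_a h1 (h1 i) hR⟩
    · rintro ⟨n, hn, hR⟩; exact ⟨n, hn, reach_cong_a h2 (h2 i) hR⟩
  · constructor
    · rintro ⟨n, hn, hR⟩; exact ⟨n, hn, reach_cong_a h1 (h1 i) hR⟩
    · rintro ⟨n, hn, hR⟩; exact ⟨n, hn, reach_cong_a h2 (h2 i) hR⟩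
  · have : ∀ j, dep (gv C a j) G Q = dep (gv C a' j) G Q := fun j => dep_cong_a (h1 j)
    simp only [this]

end CliqueDepth
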