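import Mathlib

/-!
# Numerical estimates
-/

namespace CliqueDepth

open Filter

private theorem numAux_D {B : ℕ} (hB : 2 ≤ B) (D₀ : ℕ) {X : ℝ} (hX : (B : ℝ) ^ D₀ < X) :
    ∃ D : ℕ, D₀ ≤ D ∧ X ≤ (B : ℝ) ^ D ∧ (B : ℝ) ^ D ≤ X * B := by
  classical
  have hB1 : (1 : ℝ) < B := by exact_mod_cast (by omega : 1 < B)
  have h : ∃ D : ℕ, X ≤ (B : ℝ) ^ D := by
    obtain ⟨D, hD⟩ := pow_unbounded_of_one_lt X hB1
    exact ⟨D, hD.le⟩
  have h1 := Nat.find_spec h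
  have h2 : D₀ < Nat.find h := by
    by_contra hcon
    push Not at hcon
    have : (B : ℝ) ^ (Nat.find h) ≤ (B : ℝ) ^ D₀ := pow_le_pow_right₀ hB1.le hcon
    linarith
  have h3 : ¬ (X ≤ (B : ℝ) ^ (Nat.find h - 1)) := Nat.find_min h (by omega)
  refine ⟨Nat.find h, h2.le, h1, ?_⟩
  push Not at h3
  have h4 : (B : ℝ) ^ (Nat.find h) = (B : ℝ) ^ (Nat.find h - 1) * B := by
    rw [← pow_succ]
    congr 1
    omega
  rw [h4]
  exact mul_le_mul_of_nonneg_right h3.le (by positivity)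

private theorem numAux_small (c e : ℝ) (he : 0 < e) {b : ℝ} (hb : 0 < b) :
    ∀ᶠ x : ℝ in atTop, c * x ^ (-e) < b := by
  have h : Tendsto (fun x : ℝ => c * x ^ (-e)) atTop (nhds (c * 0)) :=
    (tendsto_rpow_neg_atTop he).const_mul c
  rw [mul_zero] at h
  exact h.eventually (gt_mem_nhds hb)

private theorem numAux_final {x ε A C₁ s P Q R L : ℝ} {k K : ℕ} (hx : 1 ≤ x) (hε : 0 < ε)
    (hA : 0 ≤ A) (hC : 0 ≤ C₁) (hs0 : 0 ≤ s) (hP0 : 0 ≤ P) (hQ0 : 0 ≤ Q) (hR0 : 0 ≤ R)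
    (hK : 2 * K ≤ 2 * k + 2)
    (hs : s ≤ A * x ^ K * x ^ (-ε)) (hP : P ≤ C₁ * x ^ (ε / 16)) (hQ : Q ≤ x ^ (ε / 8))
    (hR : R ≤ x ^ (ε / 8)) (hL : x ^ (2 * k + 2) ≤ L) :
    s * (4 ^ k * (P * (Q * (R / x ^ K + s * (2 / L))))) ≤
      (A * 4 ^ k * C₁ * (1 + 2 * A)) * x ^ (-(11 * ε / 16)) := by
  have hx0 : 0 < x := by linarith
  have hxK : 0 < x ^ K := by positivity
  have hL0 : 0 < L := lt_of_lt_of_le (by positivity) hL
  have he1 : (1 : ℝ) ≤ x ^ (ε / 8) := Real.one_le_rpow hx (by positivity)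
  have he2 : x ^ (-ε) ≤ 1 := Real.rpow_le_one_of_one_le_of_nonpos hx (by linarith)
  have hs2 : s ≤ A * x ^ K := hs.trans (by
    have : 0 ≤ A * x ^ K := by positivity
    nlinarith)
  have h1 : s * (2 / L) ≤ 2 * A * (x ^ (ε / 8) / x ^ K) := by
    have h2 : 2 / L ≤ 2 / x ^ (2 * K) := by
      apply div_le_div_of_nonneg_left (by norm_num) (by positivity)
      exact (pow_le_pow_right₀ hx hK).trans hL
    calc s * (2 / L) ≤ (A * x ^ K) * (2 / x ^ (2 * K)) := by gcongr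
      _ = 2 * A * (1 / x ^ K) := by
          rw [two_mul K, pow_add]
          field_simp
      _ ≤ 2 * A * (x ^ (ε / 8) / x ^ K) := by gcongr
  have h3 : R / x ^ K + s * (2 / L) ≤ (1 + 2 * A) * (x ^ (ε / 8) / x ^ K) := by
    have h4 : R / x ^ K ≤ x ^ (ε / 8) / x ^ K := by gcongr
    linarith
  have h5 : 0 ≤ R / x ^ K + s * (2 / L) := by positivity
  calc s * (4 ^ k * (P * (Q * (R / x ^ K + s * (2 / L)))))
      ≤ (A * x ^ K * x ^ (-ε)) * (4 ^ k * ((C₁ * x ^ (ε / 16)) * (x ^ (ε / 8) *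
          ((1 + 2 * A) * (x ^ (ε / 8) / x ^ K))))) := by gcongr
    _ = (A * 4 ^ k * C₁ * (1 + 2 * A)) *
          (x ^ (-ε) * x ^ (ε / 16) * x ^ (ε / 8) * x ^ (ε / 8)) := by
          field_simp
    _ = (A * 4 ^ k * C₁ * (1 + 2 * A)) * x ^ (-(11 * ε / 16)) := by
          rw [← Real.rpow_add hx0, ← Real.rpow_add hx0, ← Real.rpow_add hx0]
          congr 2
          ring

/-- Row NUM. `α = ε / (8 k (4 d + 1))`, `δ = α / 4`, `η = ε / (16 k)`, `m = ⌈(2 k + 2) / α⌉ + 4`,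
`N = n / (2 k)`, `Λ = N ^ α`, `θ = N ^ (- 2 α)`, `D` minimal with `2 * 4 ^ k * N ^ k ≤ B ^ D` and
`D₀ ≤ D`. Then `θ Λ = N ^ (- α)`, `c₁ + f * 2 ^ m ≤ N ^ α`, `B ^ D ≤ 2 * 4 ^ k * N ^ k * B`
(`n` large), `Λ ^ m ≥ N ^ (2 k + 2)`, `s ≤ n ^ k`, and the last expression is at most
`C * s * N ^ (ε / 4) / N ^ ((k + 1) / 2)`. -/
theorem num {k : ℕ} (hk : 5 ≤ k) (d : ℕ) {ε : ℝ} (hε : 0 < ε) {B : ℕ} (hB : 2 ≤ B) (D₀ : ℕ) :
    ∃ δ : ℝ, 0 < δ ∧ ∃ m : ℕ, 4 ≤ m ∧ ∀ c₁ : ℕ, ∃ n₀ : ℕ, ∀ n ≥ n₀, ∀ f s : ℕ,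
      (f : ℝ) ≤ (n : ℝ) ^ δ → (s : ℝ) < (n : ℝ) ^ ((((k + 1) / 2 : ℕ) : ℝ) - ε) →
      ∃ (N D : ℕ) (θ Λ : ℝ), 0 < N ∧ 2 * k * N ≤ n ∧ D₀ ≤ D ∧ 0 < θ ∧ θ ≤ 1 / 4 ∧ 1 ≤ Λ ∧
        θ * Λ ≤ 1 / (32 * 4 ^ m) ∧ θ * Λ * (f * m) ≤ 1 / 4 ∧
        2 * (4 : ℝ) ^ k * (N : ℝ) ^ k ≤ (B : ℝ) ^ D ∧
        s * (4 ^ k * (((B : ℝ) ^ D) ^ (ε / (16 * k)) * ((θ ^ (2 * k * d))⁻¹ *
          (((c₁ : ℝ) + f * 2 ^ m) ^ k / (N : ℝ) ^ ((k + 1) / 2) + s * (2 / Λ ^ m))))) <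
          (1 / 4) ^ k / 2 := by
  have hk0 : (0 : ℝ) < k := by exact_mod_cast (by omega : 0 < k)
  obtain ⟨α, hα⟩ : ∃ α : ℝ, α = ε / (8 * k * (4 * d + 1)) := ⟨_, rfl⟩
  have hα0 : 0 < α := by rw [hα]; positivity
  have hαk : α * k ≤ ε / 8 := by
    rw [hα, div_mul_eq_mul_div, div_le_div_iff₀ (by positivity) (by norm_num)]
    have : (0 : ℝ) ≤ ε * k * d := by positivity
    nlinarith
  have hαd : 2 * α * (2 * k * d : ℝ) ≤ ε / 8 := by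
    rw [hα]
    have h1 : 2 * (ε / (8 * k * (4 * d + 1))) * (2 * k * d : ℝ) =
        (ε / 8) * (4 * d / (4 * d + 1)) := by
      field_simp
      ring
    rw [h1]
    have h2 : (4 * d / (4 * d + 1) : ℝ) ≤ 1 := by
      rw [div_le_one (by positivity)]
      linarith
    have h3 : (0 : ℝ) ≤ ε / 8 := by positivity
    nlinarith
  obtain ⟨m, hm⟩ : ∃ m : ℕ, m = ⌈(2 * k + 2) / α⌉₊ + 4 := ⟨_, rfl⟩
  have hm4 : 4 ≤ m := by omega
  have hmα : (2 * k + 2 : ℝ) ≤ α * m := by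
    have h1 : (2 * k + 2 : ℝ) / α ≤ ⌈((2 * k + 2) / α : ℝ)⌉₊ := Nat.le_ceil _
    have h2 : ((⌈((2 * k + 2) / α : ℝ)⌉₊ : ℕ) : ℝ) ≤ m := by
      rw [hm]; push_cast; linarith
    have h3 : (2 * k + 2 : ℝ) / α ≤ m := h1.trans h2
    rw [div_le_iff₀ hα0] at h3
    linarith
  refine ⟨α / 4, by positivity, m, hm4, fun c₁ => ?_⟩
  obtain ⟨K, hKdef⟩ : ∃ K : ℕ, K = (k + 1) / 2 := ⟨_, rfl⟩
  obtain ⟨C, hC⟩ : ∃ C : ℝ, C = (4 * k : ℝ) ^ (α / 4) := ⟨_, rfl⟩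
  have hC0 : 0 < C := by rw [hC]; positivity
  obtain ⟨A, hA⟩ : ∃ A : ℝ, A = (4 * k : ℝ) ^ K := ⟨_, rfl⟩
  have hA0 : 0 ≤ A := by rw [hA]; positivity
  obtain ⟨C₁, hC₁⟩ : ∃ C₁ : ℝ, C₁ = (2 * (4 : ℝ) ^ k * B) ^ (ε / (16 * k)) := ⟨_, rfl⟩
  have hC₁0 : 0 ≤ C₁ := by rw [hC₁]; positivity
  have hb : (0 : ℝ) < (1 / 4) ^ k / 2 := by positivity
  -- eventual statements
  have ev : ∀ᶠ x : ℝ in atTop, 1 ≤ x ∧ (B : ℝ) ^ D₀ < x ∧ 1 * x ^ (-(2 * α)) < 1 / 4 ∧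
      1 * x ^ (-α) < 1 / (32 * 4 ^ m) ∧ (C * m) * x ^ (-(3 * α / 4)) < 1 / 4 ∧
      c₁ * x ^ (-α) < 1 / 2 ∧ (C * 2 ^ m) * x ^ (-(3 * α / 4)) < 1 / 2 ∧
      (A * 4 ^ k * C₁ * (1 + 2 * A)) * x ^ (-(11 * ε / 16)) < (1 / 4) ^ k / 2 := by
    refine (eventually_ge_atTop 1).and ((eventually_gt_atTop _).and
      ((numAux_small _ _ (by positivity) (by norm_num)).and
      ((numAux_small _ _ (by positivity) (by positivity)).and
      ((numAux_small _ _ (by positivity) (by norm_num)).and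
      ((numAux_small _ _ (by positivity) (by norm_num)).and
      ((numAux_small _ _ (by positivity) (by norm_num)).and
      (numAux_small _ _ (by positivity) hb)))))))
  rw [eventually_atTop] at ev
  obtain ⟨x₀, hx₀⟩ := ev
  refine ⟨2 * k * (⌈x₀⌉₊ + 1), fun n hn f s hf hs => ?_⟩
  obtain ⟨N, hN⟩ : ∃ N : ℕ, N = n / (2 * k) := ⟨_, rfl⟩
  have h2k : 0 < 2 * k := by omega
  have hN1 : ⌈x₀⌉₊ + 1 ≤ N := by
    rw [hN, Nat.le_div_iff_mul_le h2k]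
    rw [mul_comm] at hn
    exact hn
  have hN0 : 0 < N := by omega
  have hNn : 2 * k * N ≤ n := by rw [hN]; exact Nat.mul_div_le n (2 * k)
  have hnN : n < 2 * k * (N + 1) := by
    rw [hN]
    have := Nat.lt_mul_div_succ n h2k
    exact this
  have hxN : x₀ ≤ (N : ℝ) := by
    have h1 : x₀ ≤ ⌈x₀⌉₊ := Nat.le_ceil _
    have h2 : ((⌈x₀⌉₊ : ℕ) : ℝ) ≤ N := by exact_mod_cast (by omega : ⌈x₀⌉₊ ≤ N)
    linarith
  obtain ⟨x, hx⟩ : ∃ x : ℝ, x = (N : ℝ) := ⟨_, rfl⟩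
  obtain ⟨e1, e2, e3, e4, e5, e6, e7, e8⟩ := hx₀ x (hx ▸ hxN)
  have hx0 : 0 < x := by linarith
  have hnx : (n : ℝ) ≤ 4 * k * x := by
    have h1 : (n : ℝ) ≤ 2 * k * (N + 1) := by exact_mod_cast hnN.le
    rw [hx] at e1 ⊢
    nlinarith
  have hxn : x ≤ n := by
    rw [hx]
    have h1 : N ≤ n := by
      calc N = 1 * N := (one_mul N).symm
        _ ≤ 2 * k * N := Nat.mul_le_mul_right N (by omega)
        _ ≤ n := hNn
    exact_mod_cast h1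
  have hn0 : (0 : ℝ) < n := by linarith
  obtain ⟨D, hD1, hD2, hD3⟩ := numAux_D hB D₀ (X := 2 * (4 : ℝ) ^ k * x ^ k) (by
    have h1 : (1 : ℝ) ≤ 2 * 4 ^ k := by
      have : (1 : ℝ) ≤ 4 ^ k := one_le_pow₀ (by norm_num)
      linarith
    have h2 : x ≤ x ^ k := le_self_pow₀ e1 (by omega)
    have h3 : x ^ k ≤ 2 * (4 : ℝ) ^ k * x ^ k := by
      have : 0 ≤ x ^ k := by positivity
      nlinarith
    linarith)
  -- the bound on f
  have hf' : (f : ℝ) ≤ C * x ^ (α / 4) := by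
    refine hf.trans ?_
    rw [hC, ← Real.mul_rpow (by positivity) hx0.le]
    exact Real.rpow_le_rpow hn0.le hnx (by positivity)
  have hmul : x ^ (-α) * x ^ (α / 4) = x ^ (-(3 * α / 4)) := by
    rw [← Real.rpow_add hx0]
    congr 1
    ring
  have hθΛ : x ^ (-(2 * α)) * x ^ α = x ^ (-α) := by
    rw [← Real.rpow_add hx0]
    congr 1
    ring
  have hinv : x ^ α * x ^ (-α) = 1 := by
    rw [← Real.rpow_add hx0]
    simp
  have hxα : 0 < x ^ α := by positivity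
  have hxα' : 0 < x ^ (-α) := by positivity
  have hs' : (s : ℝ) ≤ A * x ^ K * x ^ (-ε) := by
    refine hs.le.trans ?_
    rw [← hKdef, sub_eq_add_neg, Real.rpow_add hn0, Real.rpow_natCast]
    have h1 : (n : ℝ) ^ K ≤ A * x ^ K := by
      rw [hA, ← mul_pow]
      exact pow_le_pow_left₀ hn0.le hnx K
    have h2 : (n : ℝ) ^ (-ε) ≤ x ^ (-ε) :=
      Real.rpow_le_rpow_of_nonpos hx0 hxn (by linarith)
    exact mul_le_mul h1 h2 (by positivity) (by positivity)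
  have hcf : (c₁ : ℝ) + f * 2 ^ m ≤ x ^ α := by
    have h1 : (c₁ : ℝ) ≤ x ^ α / 2 := by
      have : (c₁ : ℝ) = x ^ α * (c₁ * x ^ (-α)) := by
        rw [mul_left_comm, hinv, mul_one]
      rw [this]
      have h5 := mul_le_mul_of_nonneg_left e6.le hxα.le
      linarith
    have h2 : (f : ℝ) * 2 ^ m ≤ x ^ α / 2 := by
      have h3 : (f : ℝ) * 2 ^ m ≤ C * x ^ (α / 4) * 2 ^ m := by gcongr
      have h4 : C * x ^ (α / 4) * 2 ^ m = x ^ α * ((C * 2 ^ m) * x ^ (-(3 * α / 4))) := by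
        rw [← hmul]
        calc C * x ^ (α / 4) * 2 ^ m = (x ^ α * x ^ (-α)) * (C * x ^ (α / 4) * 2 ^ m) := by
              rw [hinv, one_mul]
          _ = _ := by ring
      rw [h4] at h3
      have h5 := mul_le_mul_of_nonneg_left e7.le hxα.le
      linarith
    linarith
  refine ⟨N, D, x ^ (-(2 * α)), x ^ α, hN0, hNn, hD1, by positivity, by linarith,
    Real.one_le_rpow e1 hα0.le, ?_, ?_, by rw [← hx]; exact hD2, ?_⟩
  · rw [hθΛ]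
    linarith
  · rw [hθΛ]
    have h1 : x ^ (-α) * (f * m) ≤ x ^ (-α) * ((C * x ^ (α / 4)) * m) := by gcongr
    have h2 : x ^ (-α) * ((C * x ^ (α / 4)) * m) = (C * m) * x ^ (-(3 * α / 4)) := by
      rw [← hmul]
      ring
    linarith
  · refine lt_of_le_of_lt ?_ e8
    rw [← hKdef, ← hx]
    refine numAux_final e1 hε hA0 hC₁0 (by positivity) (by positivity) (by positivity)
      (by positivity) (by omega) hs' ?_ ?_ ?_ ?_
    · have h1 : ((B : ℝ) ^ D) ^ (ε / (16 * k)) ≤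
          (2 * (4 : ℝ) ^ k * x ^ k * B) ^ (ε / (16 * k)) :=
        Real.rpow_le_rpow (by positivity) hD3 (by positivity)
      have h2 : (2 * (4 : ℝ) ^ k * x ^ k * B) ^ (ε / (16 * k)) = C₁ * x ^ (ε / 16) := by
        rw [hC₁, show (2 * (4 : ℝ) ^ k * x ^ k * B) = (2 * (4 : ℝ) ^ k * B) * x ^ k by ring,
          Real.mul_rpow (by positivity) (by positivity), ← Real.rpow_natCast x k,
          ← Real.rpow_mul hx0.le]
        congr 2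
        field_simp
      rw [h2] at h1
      exact h1
    · have h1 : ((x ^ (-(2 * α))) ^ (2 * k * d))⁻¹ = x ^ (2 * α * (2 * k * d : ℝ)) := by
        rw [← Real.rpow_natCast, ← Real.rpow_mul hx0.le, ← Real.rpow_neg hx0.le]
        congr 1
        push_cast
        ring
      rw [h1]
      exact Real.rpow_le_rpow_of_exponent_le e1 hαd
    · have h1 : ((c₁ : ℝ) + f * 2 ^ m) ^ k ≤ (x ^ α) ^ k :=
        pow_le_pow_left₀ (by positivity) hcf k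
      have h2 : (x ^ α) ^ k = x ^ (α * k) := by
        rw [← Real.rpow_natCast, ← Real.rpow_mul hx0.le]
      rw [h2] at h1
      exact h1.trans (Real.rpow_le_rpow_of_exponent_le e1 hαk)
    · have h1 : (x ^ α) ^ m = x ^ (α * m) := by
        rw [← Real.rpow_natCast, ← Real.rpow_mul hx0.le]
      rw [h1, ← Real.rpow_natCast x (2 * k + 2)]
      apply Real.rpow_le_rpow_of_exponent_le e1
      push_cast
      exact hmα

end CliqueDepth
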