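import Pool.Agent.Lib.MP_678664_lc_AC.Core
import Pool.Agent.Lib.MP_678664_lc_AC.Num

/-!
# The main theorem
-/

open Finset

namespace CliqueDepth

open SmallDepth

theorem lpar {Ω : Type} {θ Λ : ℝ} {m f : ℕ} (hθ0 : 0 < θ) (hθ : θ ≤ 1 / 4) (hΛ : 1 ≤ Λ)
    (h1 : θ * Λ ≤ 1 / (32 * 4 ^ m)) (h2 : θ * Λ * (f * m) ≤ 1 / 4) :
    LPar (fun _ : Ω => θ) (fun _ => (1 - θ) / 2) Λ m f := by
  refine ⟨⟨fun _ => hθ0.le, fun _ => by linarith, fun _ => by linarith, hΛ⟩, ?_, ?_⟩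
  · refine ⟨fun t => 1 / 2 * (1 / 4) ^ t, by norm_num, fun t _ => by positivity, ?_⟩
    intro t ht _
    have h3 : (0 : ℝ) < (1 / 4) ^ t := by positivity
    have h4 : (1 / 4 : ℝ) ^ m ≤ (1 / 4) ^ t :=
      pow_le_pow_of_le_one (by norm_num) (by norm_num) ht.le
    have h5 : (1 : ℝ) / (32 * 4 ^ m) = (1 / 4) ^ m / 32 := by
      rw [one_div_pow]
      field_simp
    rw [h5] at h1
    have h6 : 1 / 2 * (1 / 4 : ℝ) ^ (t + 1) + 2 * (θ * Λ) ≤ (1 - θ) / 2 * (1 / 2 * (1 / 4) ^ t) := by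
      rw [pow_succ]
      nlinarith
    refine ⟨h6, ?_⟩
    have h7 : 1 - θ - (1 - θ) / 2 = (1 - θ) / 2 := by ring
    rw [h7]
    exact h6
  · have hB : 0 ≤ θ * Λ := by positivity
    refine ⟨θ * Λ, hB, fun _ => le_rfl, ?_⟩
    have h3 : (1 + 2 * (θ * Λ)) ^ (f * m) ≤ Real.exp (2 * (θ * Λ)) ^ (f * m) := by
      refine pow_le_pow_left₀ (by positivity) ?_ _
      have := Real.add_one_le_exp (2 * (θ * Λ))
      linarith
    refine h3.trans ?_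
    rw [← Real.exp_nat_mul]
    have h4 : ((f * m : ℕ) : ℝ) * (2 * (θ * Λ)) ≤ 1 / 2 := by
      push_cast
      nlinarith
    refine (Real.exp_le_exp.2 h4).trans ?_
    have h5 : Real.exp (1 / 2) ^ 2 = Real.exp 1 := by
      rw [← Real.exp_nat_mul]
      norm_num
    have h6 : Real.exp 1 < 4 := by
      have := Real.exp_one_lt_d9
      linarith
    have h7 := Real.exp_pos (1 / 2)
    nlinarith

/-- Circuits of constant depth with a threshold gate on top need `n ^ (⌈k / 2⌉ - ε)` gates. -/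
theorem main {k : ℕ} (hk : 5 ≤ k) (d : ℕ) {ε : ℝ} (hε : 0 < ε) : ∃ δ : ℝ, 0 < δ ∧ ∃ n₀ : ℕ,
    ∀ n ≥ n₀, ∀ f s : ℕ, (f : ℝ) ≤ (n : ℝ) ^ δ → HasCircuit n k d f s →
      (n : ℝ) ^ ((((k + 1) / 2 : ℕ) : ℝ) - ε) ≤ s := by
  classical
  have hkr : (0 : ℝ) < k := by
    have : 0 < k := by omega
    exact_mod_cast this
  have hη : 0 < ε / (16 * k) := by positivity
  obtain ⟨B, hB, D₀, hT⟩ := template (k := k) (by omega) hη
  obtain ⟨δ, hδ, m, hm, hnum⟩ := num hk d hε hB D₀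
  obtain ⟨c₁, hc₁⟩ : ∃ c₁ : ℕ, c₁ = (2 ^ m + 1) ^ ((2 * k + 1) ^ (2 * k)) := ⟨_, rfl⟩
  obtain ⟨n₀, hn₀⟩ := hnum c₁
  refine ⟨δ, hδ, n₀, fun n hn f s hf hcirc => ?_⟩
  by_contra hcon
  push Not at hcon
  obtain ⟨N, D, θ, Λ, hN, hNn, hD, hθ0, hθ, hΛ, h1, h2, hM, hfin⟩ := hn₀ n hn f s hf hcon
  obtain ⟨R, hR, hK⟩ := hT D hD
  obtain ⟨C, o, w, θ', hs, hC, hcl⟩ := hcirc
  -- vertices
  have hcard : Fintype.card (Un k N × Bool) ≤ Fintype.card (Fin n) := by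
    rw [Fintype.card_prod, Fintype.card_prod, Fintype.card_fin, Fintype.card_fin,
      Fintype.card_bool, Fintype.card_fin]
    calc k * N * 2 = 2 * k * N := by ring
      _ ≤ n := hNn
  obtain ⟨φ⟩ := Function.Embedding.nonempty_of_card_le hcard
  -- labels
  have hB0 : (0 : ℝ) < B := by
    have : 0 < B := by omega
    exact_mod_cast this
  have hMc : (Fintype.card (Fin D → Fin B) : ℝ) = (B : ℝ) ^ D := by
    rw [Fintype.card_fun, Fintype.card_fin, Fintype.card_fin]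
    push_cast
    rfl
  obtain ⟨M, hMd⟩ : ∃ M : ℝ, M = (B : ℝ) ^ D := ⟨_, rfl⟩
  have hM0 : 0 < M := by rw [hMd]; positivity
  obtain ⟨K, hKd⟩ : ∃ K : ℝ, K = (Nat.card {κ : Fin k → Fin D → Fin B // IsCl R κ} : ℝ) :=
    ⟨_, rfl⟩
  rw [← hMd] at hM hfin
  rw [← hMd, ← hKd] at hK
  have hK0 : 0 < K := by
    have h3 : 0 < M ^ (k - 1) := by positivity
    have h4 : 0 < M ^ (ε / (16 * k)) := Real.rpow_pos_of_pos hM0 _
    by_contra h5
    push Not at h5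
    have : M ^ (ε / (16 * k)) * K ≤ 0 := mul_nonpos_of_nonneg_of_nonpos h4.le h5
    linarith
  have hN0 : (0 : ℝ) < N := by exact_mod_cast hN
  have hN1 : (1 : ℝ) ≤ N := by exact_mod_cast hN
  have hθd0 : 0 < θ ^ d := pow_pos hθ0 d
  have hθd1 : θ ^ d ≤ 1 := pow_le_one₀ hθ0.le (by linarith)
  have hΛ0 : 0 < Λ := by linarith
  obtain ⟨ε₁, hε₁⟩ : ∃ ε₁ : ℝ, ε₁ = s * (2 / Λ ^ m) := ⟨_, rfl⟩
  have hε₁0 : 0 ≤ ε₁ := by rw [hε₁]; positivity
  obtain ⟨A, hA⟩ : ∃ A : ℝ, A = (c₁ : ℝ) + f * 2 ^ m := ⟨_, rfl⟩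
  have hAa : ((asize (2 * k) (2 ^ m) f : ℕ) : ℝ) = A := by
    rw [hA, hc₁]
    unfold asize
    push_cast
    ring
  have hA1 : 1 ≤ A := by
    rw [hA, hc₁]
    have h3 : (1 : ℝ) ≤ ((2 ^ m + 1 : ℕ) ^ ((2 * k + 1) ^ (2 * k)) : ℕ) := by
      exact_mod_cast Nat.one_le_pow _ _ (by positivity)
    have h4 : (0 : ℝ) ≤ f * 2 ^ m := by positivity
    push_cast at h3 ⊢
    linarith
  obtain ⟨E, hEd⟩ : ∃ E : ℝ, E = (θ ^ (2 * k * d))⁻¹ * (A ^ k / (N : ℝ) ^ ((k + 1) / 2) + ε₁) :=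
    ⟨_, rfl⟩
  have hE0 : 0 ≤ E := by rw [hEd]; positivity
  have hcore := core (k := k) (N := N) (n := n) (Λ := Fin D → Fin B) (d := d) (f := f) (s := s)
    (o := o) (m := m) (W := (k - 1) / 2) (by omega) hN (by
      have : (0 : ℝ) < (Fintype.card (Fin D → Fin B) : ℝ) := by rw [hMc, ← hMd]; exact hM0
      exact_mod_cast this) φ hR hs hC hcl (by omega) (by omega) (q := θ ^ d)
    (p := (1 - θ ^ d) / 2) hθd0 hθd1 (by linarith) (by linarith) (ε₁ := ε₁) (by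
      intro a ha
      have ha' : IsLoc m a := fun e => (ha e).mono hm
      refine (prob_good' ha' (fun i hi => (hC i hi).2) (by linarith)
        (lpar hθ0 hθ hΛ h1 h2) hθ0.le d).trans ?_
      rw [hε₁]
      refine mul_le_mul_of_nonneg_right ?_ (by positivity)
      exact_mod_cast (sizeL_le C o d).trans hs) hE0 (by
      intro j hj1 hj2
      have hjk : j ≤ k := by omega
      have hjW : (k + 1) / 2 ≤ j := by omega
      rw [hEd, hAa]
      have h3 : ((θ ^ d) ^ (2 * j))⁻¹ ≤ (θ ^ (2 * k * d))⁻¹ := by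
        rw [← pow_mul]
        refine inv_anti₀ (by positivity) ?_
        refine pow_le_pow_of_le_one hθ0.le (by linarith) ?_
        calc d * (2 * j) ≤ d * (2 * k) := by gcongr
          _ = 2 * k * d := by ring
      have h4 : A ^ j / (N : ℝ) ^ j ≤ A ^ k / (N : ℝ) ^ ((k + 1) / 2) := by
        refine div_le_div₀ (by positivity) (pow_le_pow_right₀ hA1 hjk) (by positivity) ?_
        exact pow_le_pow_right₀ hN1 hjW
      refine mul_le_mul h3 (by linarith) (by positivity) (by positivity))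
  rw [hMc, ← hMd, ← hKd] at hcore
  -- conclusion
  have hp : (1 / 4 : ℝ) ^ k ≤ (1 - (1 - θ ^ d) / 2) ^ (2 * k) := by
    rw [pow_mul]
    refine pow_le_pow_left₀ (by norm_num) ?_ _
    nlinarith
  have hMk : M ^ k = M * M ^ (k - 1) := by
    obtain ⟨k', rfl⟩ : ∃ k', k = k' + 1 := ⟨k - 1, by omega⟩
    rw [Nat.add_sub_cancel, pow_succ]
    ring
  have hs0 : (0 : ℝ) ≤ s := Nat.cast_nonneg s
  have h3 : M * K * (1 / 4) ^ k ≤ (N : ℝ) ^ k * K +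
      s * (4 ^ k * (M * (M ^ (ε / (16 * k)) * K) * E)) := by
    calc M * K * (1 / 4) ^ k ≤ M * K * (1 - (1 - θ ^ d) / 2) ^ (2 * k) := by gcongr
      _ ≤ _ := hcore
      _ ≤ _ := by
          rw [hMk]
          gcongr
  have h4 : (1 / 4 : ℝ) ^ k ≤ (N : ℝ) ^ k / M +
      s * (4 ^ k * (M ^ (ε / (16 * k)) * E)) := by
    have hMK : 0 < M * K := mul_pos hM0 hK0
    refine le_of_mul_le_mul_left ?_ hMK
    calc M * K * (1 / 4) ^ k ≤ _ := h3
      _ = _ := by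
          field_simp
  have h5 : (N : ℝ) ^ k / M ≤ (1 / 4) ^ k / 2 := by
    rw [div_le_div_iff₀ hM0 (by norm_num)]
    have h6 : (1 / 4 : ℝ) ^ k * (4 : ℝ) ^ k = 1 := by
      rw [← mul_pow]
      norm_num
    have h7 : 0 < (1 / 4 : ℝ) ^ k := by positivity
    calc (N : ℝ) ^ k * 2 = (1 / 4 : ℝ) ^ k * (2 * (4 : ℝ) ^ k * (N : ℝ) ^ k) := by
          linear_combination (-2 * (N : ℝ) ^ k) * h6
      _ ≤ (1 / 4 : ℝ) ^ k * M := by gcongr
  rw [← hA, ← hε₁, ← hEd] at hfin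
  linarith

end CliqueDepth
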