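import Pool.Agent.Lib.MP_678664_lc_AC.PlanDefs

/-! # Row ADJ: an adjacency depends on two units -/

open Finset

namespace CliqueDepth

open SmallDepth

variable {k N n : ℕ} {Λ : Type}

private theorem adjL_congr_h48 {R : Fin k → Fin k → Λ → Λ → Prop} {L : Cd k N → Λ}
    {x y : Cd k N → Bool} {a b : Un k N × Bool} (ha : ∀ c, x (a.1, c) = y (a.1, c))
    (hb : ∀ c, x (b.1, c) = y (b.1, c)) (h : adjL R L x a b) : adjL R L y a b := by
  unfold adjL lab at h ⊢
  rw [← ha, ← hb, ← ha, ← hb]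
  exact h

/-- Row ADJ: an adjacency depends on two units. -/
theorem adj_loc (φ : Un k N × Bool ↪ Fin n) (R : Fin k → Fin k → Λ → Λ → Prop) (L : Cd k N → Λ)
    (e : Fin n × Fin n) : ∃ T : Finset (Un k N), T.card ≤ 2 ∧
      ∀ x y : Cd k N → Bool, (∀ S : Cd k N, S.1 ∈ T → x S = y S) →
        (Γ φ R L x e ↔ Γ φ R L y e) := by
  by_cases h : ∃ a b, φ a = e.1 ∧ φ b = e.2
  · obtain ⟨a₀, b₀, ha, hb⟩ := h
    refine ⟨{a₀.1, b₀.1}, card_le_two, ?_⟩
    have key : ∀ x y : Cd k N → Bool,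
        (∀ S : Cd k N, S.1 ∈ ({a₀.1, b₀.1} : Finset (Un k N)) → x S = y S) →
        Γ φ R L x e → Γ φ R L y e := by
      rintro x y hxy ⟨a, b, h, h'⟩
      have h₁ : ∀ c, x (a₀.1, c) = y (a₀.1, c) := fun c => hxy _ (by simp)
      have h₂ : ∀ c, x (b₀.1, c) = y (b₀.1, c) := fun c => hxy _ (by simp)
      refine ⟨a, b, h, ?_⟩
      rcases h with h | h
      · have e1 : a = a₀ := φ.injective (h.1.trans ha.symm)
        have e2 : b = b₀ := φ.injective (h.2.trans hb.symm)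
        subst e1 e2
        exact adjL_congr_h48 h₁ h₂ h'
      · have e1 : b = a₀ := φ.injective (h.1.trans ha.symm)
        have e2 : a = b₀ := φ.injective (h.2.trans hb.symm)
        subst e1 e2
        exact adjL_congr_h48 h₂ h₁ h'
    exact fun x y hxy => ⟨key x y hxy, key y x fun S hS => (hxy S hS).symm⟩
  · refine ⟨∅, by simp, fun x y _ => ?_⟩
    have key : ∀ x : Cd k N → Bool, ¬ Γ φ R L x e := by
      rintro x ⟨a, b, h' | h', -⟩
      · exact h ⟨a, b, h'.1, h'.2⟩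
      · exact h ⟨b, a, h'.1, h'.2⟩
    exact iff_of_false (key x) (key y)

end CliqueDepth
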