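import Pool.Agent.Lib.MP_678664_lc_AC.PlanDefs

/-!
# Planted coordinates and the threshold gate
-/

open Finset

namespace CliqueDepth

open SmallDepth

variable {k N n : ℕ} {Λ : Type}

theorem card_Qs (X : Finset (Fin k × Bool)) (u : Fin k → Fin N) : (Qs X u).card = X.card := by
  unfold Qs
  refine card_image_of_injective _ fun e e' hee => ?_
  have h1 := Prod.mk.inj hee
  have h2 := (Prod.mk.inj h1.1).1
  exact Prod.ext h2 h1.2

theorem touch_Qs (X : Finset (Fin k × Bool)) (u : Fin k → Fin N) :
    touch (Qs X u) = (tys X).card := by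
  unfold touch Qs tys
  rw [image_image]
  have h1 : (X.image ((fun e : Cd k N => e.1) ∘ fun e => ((e.1, u e.1), e.2))) =
      (X.image fun e => e.1).image fun j => (j, u j) := by
    rw [image_image]
    rfl
  rw [h1]
  exact card_image_of_injective _ fun a b hab => (Prod.mk.inj hab).1

/-- The subsets of the planted coordinates. -/
theorem exists_Qs {u : Fin k → Fin N} {Q : Finset (Cd k N)} (hQ : Q ⊆ Ph u) :
    ∃ X : Finset (Fin k × Bool), Q = Qs X u := by
  classical
  refine ⟨univ.filter fun e => ((e.1, u e.1), e.2) ∈ Q, ?_⟩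
  unfold Qs
  ext e
  rw [mem_image]
  constructor
  · intro he
    have h1 := hQ he
    unfold Ph at h1
    obtain ⟨e', -, rfl⟩ := mem_image.1 h1
    exact ⟨e', mem_filter.2 ⟨mem_univ _, he⟩, rfl⟩
  · rintro ⟨e', he', rfl⟩
    exact (mem_filter.1 he').2

theorem card_Ph (u : Fin k → Fin N) : (Ph u).card ≤ 2 * k := by
  unfold Ph
  refine card_image_le.trans ?_
  rw [card_univ, Fintype.card_prod, Fintype.card_fin, Fintype.card_bool, mul_comm]

theorem touch_mono (U V : Finset (Cd k N)) (hUV : U ⊆ V) : touch U ≤ touch V :=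
  card_le_card (image_subset_image hUV)

theorem touch_union (U V : Finset (Cd k N)) : touch (U ∪ V) ≤ touch U + touch V := by
  unfold touch
  rw [image_union]
  exact card_union_le _ _

/-- A function which touches fewer than `k` planted units does not depend on some state. -/
theorem exists_free {v : (Cd k N → Bool) → Prop} {G : Cd k N → Bool}
    {u : Fin k → Fin N} (hv : touch (dep v G (Ph u)) < k) :
    ∃ j : Fin k, ∀ x : Fin k → Bool,
      (v (fl G (Ph u) (Xs u (Function.update x j (!(x j))))) ↔ v (fl G (Ph u) (Xs u x))) := by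
  classical
  obtain ⟨j, hj⟩ : ∃ j : Fin k, (j, u j) ∉ (dep v G (Ph u)).image fun e => e.1 := by
    by_contra hcon
    push Not at hcon
    have h1 : (univ.image fun j : Fin k => (j, u j)) ⊆ (dep v G (Ph u)).image fun e => e.1 := by
      intro z hz
      obtain ⟨j, -, rfl⟩ := mem_image.1 hz
      exact hcon j
    have h2 := card_le_card h1
    rw [card_image_of_injective _ (fun a b hab => (Prod.mk.inj hab).1), card_univ,
      Fintype.card_fin] at h2
    unfold touch at hv
    omega
  refine ⟨j, fun x => ?_⟩
  rw [dep_inter v G (Ph u) (Xs u (Function.update x j (!(x j)))) _ Subset.rfl,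
    dep_inter v G (Ph u) (Xs u x) _ Subset.rfl]
  have h1 : Xs u (Function.update x j (!(x j))) ∩ dep v G (Ph u) = Xs u x ∩ dep v G (Ph u) := by
    ext e
    simp only [mem_inter]
    refine and_congr_left fun he => ?_
    unfold Xs
    rw [mem_filter, mem_filter]
    refine and_congr_right fun heP => ?_
    have hne : e.1.1 ≠ j := by
      intro hej
      apply hj
      rw [mem_image]
      refine ⟨e, he, ?_⟩
      unfold Ph at heP
      obtain ⟨⟨j', b⟩, -, rfl⟩ := mem_image.1 heP
      simp only at hej
      subst hej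
      rfl
    rw [Function.update_of_ne hne]
  rw [h1]

/-- A threshold gate which reads functions touching fewer than `k` planted units does not compute
the parity of the states. -/
theorem threshold_fails (hk : 0 < k) {G : Cd k N → Bool} {u : Fin k → Fin N}
    {v : ℕ → (Cd k N → Bool) → Prop} {m : ℕ} {w : ℕ → ℝ} {θ : ℝ}
    (hv : ∀ i < m, touch (dep (v i) G (Ph u)) < k)
    (h : ∀ x : Fin k → Bool, Odd (univ.filter fun j => x j = true).card ↔
      θ ≤ ∑ i ∈ range m, w i * bit (v i (fl G (Ph u) (Xs u x)))) : False := by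
  classical
  have h1 : ∀ i < m, ∑ x, sgn x * bit (v i (fl G (Ph u) (Xs u x))) = 0 := by
    intro i hi
    obtain ⟨j, hj⟩ := exists_free (hv i hi)
    exact sum_sgn_eq_zero (fun x => bit (v i (fl G (Ph u) (Xs u x)))) j fun x => by
      rw [propext (hj x)]
  have h2 : ∑ x : Fin k → Bool, sgn x * θ = 0 :=
    sum_sgn_eq_zero (fun _ => θ) ⟨0, hk⟩ fun _ => rfl
  have h3 : ∑ x : Fin k → Bool, sgn x *
      (∑ i ∈ range m, w i * bit (v i (fl G (Ph u) (Xs u x))) - θ) = 0 := by
    simp only [mul_sub, sum_sub_distrib, h2, sub_zero, mul_sum]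
    rw [sum_comm]
    refine sum_eq_zero fun i hi => ?_
    have := h1 i (mem_range.1 hi)
    calc _ = ∑ x, w i * (sgn x * bit (v i (fl G (Ph u) (Xs u x)))) :=
          sum_congr rfl fun x _ => by ring
      _ = 0 := by rw [← mul_sum, this, mul_zero]
  have h4 : ∑ x : Fin k → Bool, sgn x *
      (∑ i ∈ range m, w i * bit (v i (fl G (Ph u) (Xs u x))) - θ) < 0 := by
    refine sum_neg' ?_ ⟨fun _ => false, mem_univ _, ?_⟩
    · intro x _
      by_cases hx : Odd (univ.filter fun j => x j = true).card
      · have := (h x).1 hx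
        unfold sgn
        rw [hx.neg_one_pow]
        linarith
      · have := mt (h x).2 hx
        push Not at this
        unfold sgn
        rw [(Nat.not_odd_iff_even.1 hx).neg_one_pow]
        linarith
    · have hx : ¬ Odd (univ.filter fun j : Fin k => (fun _ : Fin k => false) j = true).card := by
        simp
      have := mt (h _).2 hx
      push Not at this
      unfold sgn
      rw [(Nat.not_odd_iff_even.1 hx).neg_one_pow]
      linarith
  exact h4.ne h3

/-- The graph depends only on the current labels. -/
theorem gr_congr_lab (φ : Un k N × Bool ↪ Fin n) (R : Fin k → Fin k → Λ → Λ → Prop)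
    {L L' : Cd k N → Λ} {x : Cd k N → Bool} (h : lab L x = lab L' x) :
    gr φ R L x = gr φ R L' x := by
  ext v v'
  unfold gr adjL
  simp only [h]

/-- Labels of planted units which are not touched do not matter. -/
theorem lab_agree (L : Cd k N → Λ) (u : Fin k → Fin N) (κ : Fin k → Λ) {G : Cd k N → Bool}
    (hG : ∀ S ∈ Ph u, G S = false) (X : Finset (Fin k × Bool)) {Z : Finset (Cd k N)} :
    lab (pl L u κ univ) (fl G (Qs X u) Z) = lab (pl L u κ (tys X)) (fl G (Qs X u) Z) := by
  funext e
  unfold lab pl
  simp only [mem_univ, true_and]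
  by_cases h1 : fl G (Qs X u) Z (e, false) = true ∧ e.2 = u e.1
  · have hJ : e.1 ∈ tys X := by
      by_contra hcon
      have h2 : (e, false) ∉ Qs X u := by
        intro h
        unfold Qs at h
        obtain ⟨e', he', h3⟩ := mem_image.1 h
        apply hcon
        unfold tys
        rw [mem_image]
        refine ⟨e', he', ?_⟩
        have := (Prod.mk.inj h3).1
        rw [← this]
      have h3 : (e, false) ∈ Ph u := by
        unfold Ph
        rw [mem_image]
        refine ⟨(e.1, false), mem_univ _, ?_⟩
        simp only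
        rw [← h1.2]
      have h4 := h1.1
      unfold fl at h4
      rw [if_neg h2, hG _ h3] at h4
      exact absurd h4 (by simp)
    rw [if_pos h1, if_pos ⟨h1.1, hJ, h1.2⟩]
  · rw [if_neg h1, if_neg (fun h => h1 ⟨h.1, h.2.2⟩)]

end CliqueDepth
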