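import Pool.Agent.Lib.MP_678664_lc_AC.Plan
import Pool.Agent.Lib.MP_678664_lc_AC.Thr

/-!
# The lower bound in terms of the parameters
-/

open Finset

namespace CliqueDepth

open SmallDepth

variable {k N n : ℕ} {Λ : Type}

theorem gamma_loc (φ : Un k N × Bool ↪ Fin n) (R : Fin k → Fin k → Λ → Λ → Prop)
    (L : Cd k N → Λ) : IsLoc 4 (Γ φ R L) := by
  intro e
  obtain ⟨T, hT, hT'⟩ := adj_loc φ R L e
  have h1 : DT (T ×ˢ (univ : Finset Bool)).card (fun x => Γ φ R L x e) := by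
    refine DT.of_junta _ _ fun x y hxy => hT' x y fun S hS => hxy S ?_
    exact mem_product.2 ⟨hS, mem_univ _⟩
  refine h1.mono ?_
  rw [card_product, card_univ, Fintype.card_bool]
  omega

theorem gamma_touch (φ : Un k N × Bool ↪ Fin n) (R : Fin k → Fin k → Λ → Λ → Prop)
    (L : Cd k N → Λ) (e : Fin n × Fin n) (G : Cd k N → Bool) (P : Finset (Cd k N)) :
    touch (dep (fun x => Γ φ R L x e) G P) ≤ 2 := by
  obtain ⟨T, hT, hT'⟩ := adj_loc φ R L e
  have h1 : dep (fun x => Γ φ R L x e) G P ⊆ T ×ˢ (univ : Finset Bool) := by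
    refine dep_subset_of (fun x y hxy => hT' x y fun S hS => hxy S ?_) G P
    exact mem_product.2 ⟨hS, mem_univ _⟩
  unfold touch
  refine (card_le_card (image_subset_iff.2 fun S hS => ?_)).trans hT
  exact (mem_product.1 (h1 hS)).1

/-- The main inequality. -/
theorem core {d f s o m W : ℕ} (hk : 2 ≤ k) (hN : 0 < N) [Fintype Λ] [DecidableEq Λ]
    (hM : 0 < Fintype.card Λ) (φ : Un k N × Bool ↪ Fin n)
    {R : Fin k → Fin k → Λ → Λ → Prop} (hR : Uniq R)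
    {C : Circuit (Fin n × Fin n)} {w : ℕ → ℝ} {θ' : ℝ} (hs : C.size o ≤ s)
    (hC : ∀ i ≤ o, C.depth i ≤ d ∧ (C i).wires ≤ f)
    (hcl : ∀ G : SimpleGraph (Fin n), ¬ G.CliqueFree k ↔
      θ' ≤ ∑ i ∈ range (o + 1), w i * bit (C.val (fun e => G.Adj e.1 e.2) i))
    (hW : 2 ≤ W) (hWk : 2 * W < k)
    {q p : ℝ} (hq0 : 0 < q) (hq1 : q ≤ 1) (hp : 0 ≤ p) (hqp : q + p ≤ 1) {ε₁ : ℝ}
    (hG : ∀ a : (Cd k N → Bool) → Fin n × Fin n → Prop, IsLoc 4 a →
      Ex (fun _ : Cd k N => q) (fun _ => p) (fun ρ => ind (¬ Good C a o m d ρ)) ≤ ε₁)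
    {E : ℝ} (hE0 : 0 ≤ E) (hE : ∀ j, W < j → j ≤ 2 * W → (q ^ (2 * j))⁻¹ *
      (((asize (2 * k) (2 ^ m) f : ℕ) : ℝ) ^ j / (N : ℝ) ^ j + ε₁) ≤ E) :
    (Fintype.card Λ : ℝ) * Nat.card {κ : Fin k → Λ // IsCl R κ} * (1 - p) ^ (2 * k) ≤
      (N : ℝ) ^ k * Nat.card {κ : Fin k → Λ // IsCl R κ} +
        s * (4 ^ k * ((Fintype.card Λ : ℝ) ^ k * E)) := by
  classical
  have hk0 : 0 < k := by omega
  obtain ⟨M, hMd⟩ : ∃ M : ℝ, M = (Fintype.card Λ : ℝ) := ⟨_, rfl⟩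
  have hM0 : 0 < M := by rw [hMd]; exact_mod_cast hM
  obtain ⟨𝒦, h𝒦⟩ : ∃ 𝒦 : Finset (Fin k → Λ), 𝒦 = univ.filter (IsCl R) := ⟨_, rfl⟩
  have hKc : (Nat.card {κ : Fin k → Λ // IsCl R κ} : ℝ) = 𝒦.card := by
    rw [h𝒦, Nat.card_eq_fintype_card, Fintype.card_subtype]
  obtain ⟨U, hUd⟩ : ∃ U : ℝ, U = (Fintype.card (Cd k N → Λ) : ℝ) := ⟨_, rfl⟩
  have hU : U = M ^ Fintype.card (Cd k N) := by
    rw [hUd, hMd, Fintype.card_fun]
    push_cast
    rfl
  have hU0 : 0 < U := by rw [hU]; positivity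
  have hNk : (0 : ℝ) < (N : ℝ) ^ k := by
    have : (0 : ℝ) < N := by exact_mod_cast hN
    positivity
  set qf : Cd k N → ℝ := fun _ => q with hqf
  set pf : Cd k N → ℝ := fun _ => p with hpf
  have hqn : ∀ S : Cd k N, 0 ≤ qf S := fun S => hq0.le
  have hpn : ∀ S : Cd k N, 0 ≤ pf S := fun S => hp
  have hqpn : ∀ S : Cd k N, qf S + pf S ≤ 1 := fun S => hqp
  rw [hKc, ← hMd]
  -- the exceptional cases
  set I := (range (o + 1)).filter fun i => (C i).counts = true with hI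
  set 𝒳 := (univ : Finset (Finset (Fin k × Bool))).filter fun X =>
    W < (tys X).card ∧ (tys X).card ≤ 2 * W with h𝒳
  have key : ∀ (u : Fin k → Fin N) (κ : Fin k → Λ) (L : Cd k N → Λ) (ρ : Restr (Cd k N)),
      κ ∈ 𝒦 → ind (∀ S ∈ Ph u, ρ S ≠ some true) ≤
        ind (Extra R (pl L u κ univ) (tr ρ) u) +
        ∑ i ∈ I, ∑ X ∈ 𝒳,
          ind (Ev C (Γ φ R (pl L u κ (tys X))) (2 * k) (tr ρ) (Qs X u) i) := by
    intro u κ L ρ hκ
    have hκ' : IsCl R κ := by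
      rw [h𝒦] at hκ
      exact (mem_filter.1 hκ).2
    have hs0 : 0 ≤ ∑ i ∈ I, ∑ X ∈ 𝒳,
        ind (Ev C (Γ φ R (pl L u κ (tys X))) (2 * k) (tr ρ) (Qs X u) i) :=
      sum_nonneg fun i _ => sum_nonneg fun X _ => ind_nonneg _
    by_cases hfree : ∀ S ∈ Ph u, ρ S ≠ some true
    swap
    · rw [ind_false hfree]
      linarith [ind_nonneg (Extra R (pl L u κ univ) (tr ρ) u)]
    by_cases hex : Extra R (pl L u κ univ) (tr ρ) u
    · rw [ind_true hex]
      linarith [ind_le_one (∀ S ∈ Ph u, ρ S ≠ some true)]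
    rw [ind_true hfree, ind_false hex, zero_add]
    by_contra hcon
    push Not at hcon
    have hGf : ∀ S ∈ Ph u, tr ρ S = false := by
      intro S hS
      unfold tr
      exact decide_eq_false (hfree S hS)
    have hno : ∀ i ∈ I, ∀ X ∈ 𝒳,
        ¬ Ev C (Γ φ R (pl L u κ univ)) (2 * k) (tr ρ) (Qs X u) i := by
      intro i hi X hX hev
      have hev' : Ev C (Γ φ R (pl L u κ (tys X))) (2 * k) (tr ρ) (Qs X u) i := by
        refine (ev_congr_a (fun Z _ => ?_) i).1 hev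
        funext e
        unfold Γ
        rw [gr_congr_lab φ R (lab_agree L u κ hGf X)]
      have h1 : ind (Ev C (Γ φ R (pl L u κ (tys X))) (2 * k) (tr ρ) (Qs X u) i) ≤
          ∑ i ∈ I, ∑ X ∈ 𝒳,
            ind (Ev C (Γ φ R (pl L u κ (tys X))) (2 * k) (tr ρ) (Qs X u) i) := by
        refine le_trans ?_ (single_le_sum (f := fun i => ∑ X ∈ 𝒳,
          ind (Ev C (Γ φ R (pl L u κ (tys X))) (2 * k) (tr ρ) (Qs X u) i))
          (fun i _ => sum_nonneg fun X _ => ind_nonneg _) hi)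
        exact single_le_sum (f := fun X =>
          ind (Ev C (Γ φ R (pl L u κ (tys X))) (2 * k) (tr ρ) (Qs X u) i))
          (fun X _ => ind_nonneg _) hX
      rw [ind_true hev'] at h1
      linarith
    have hdep := small_dep (C := C) (a := Γ φ R (pl L u κ univ)) (o := o) (d := d) (K := 2 * k)
      hGf (card_Ph u) touch_mono touch_union (by simp [touch]) (w := W)
      (fun e => (gamma_touch φ R _ e _ _).trans hW) (by
        intro i hi hcnt _ Q hQ h1 h2 hev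
        obtain ⟨X, rfl⟩ := exists_Qs hQ
        rw [touch_Qs] at h1 h2
        refine hno i ?_ X ?_ hev
        · rw [hI, mem_filter, mem_range]
          exact ⟨by omega, hcnt⟩
        · rw [h𝒳, mem_filter]
          exact ⟨mem_univ _, h1, h2⟩)
    refine threshold_fails (k := k) hk0 (G := tr ρ) (u := u)
      (v := gv C (Γ φ R (pl L u κ univ))) (m := o + 1) (w := w) (θ := θ') ?_ ?_
    · intro i hi
      have := hdep i (by omega) (hC i (by omega)).1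
      omega
    · intro x
      obtain ⟨h1, h2⟩ := hybrid hk φ L hκ' (tr ρ) u x
      constructor
      · intro hodd
        exact (hcl _).1 (h1 hodd)
      · intro hle
        exact h2 hex ((hcl (gr φ R (pl L u κ univ) (fl (tr ρ) (Ph u) (Xs u x)))).2 hle)
  -- expectation
  have hEx : ∀ u : Fin k → Fin N, (1 - p) ^ (2 * k) =
      Ex qf pf (fun ρ => ind (∀ S ∈ Ph u, ρ S ≠ some true)) := by
    intro u
    rw [Ex_ne_true]
    have h1 : (Ph u).card = 2 * k := by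
      unfold Ph
      rw [card_image_of_injective]
      · rw [card_univ, Fintype.card_prod, Fintype.card_fin, Fintype.card_bool, mul_comm]
      · intro e e' hee
        have h1 := Prod.mk.inj hee
        have h2 := (Prod.mk.inj h1.1).1
        exact Prod.ext h2 h1.2
    change _ = ∏ _S ∈ Ph u, (1 - p)
    rw [prod_const, h1]
  have hsum : ∑ u : Fin k → Fin N, ∑ κ ∈ 𝒦, ∑ _L : Cd k N → Λ, (1 - p) ^ (2 * k) ≤
      ∑ u : Fin k → Fin N, ∑ κ ∈ 𝒦,
        Ex qf pf (fun ρ => ∑ L : Cd k N → Λ, ind (Extra R (pl L u κ univ) (tr ρ) u)) +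
      ∑ i ∈ I, ∑ X ∈ 𝒳, ∑ u : Fin k → Fin N, Ex qf pf (fun ρ => ∑ κ ∈ 𝒦, ∑ L : Cd k N → Λ,
        ind (Ev C (Γ φ R (pl L u κ (tys X))) (2 * k) (tr ρ) (Qs X u) i)) := by
    have h1 : ∀ u : Fin k → Fin N, ∀ κ ∈ 𝒦, ∀ L : Cd k N → Λ, (1 - p) ^ (2 * k) ≤
        Ex qf pf (fun ρ => ind (Extra R (pl L u κ univ) (tr ρ) u)) +
        ∑ i ∈ I, ∑ X ∈ 𝒳, Ex qf pf (fun ρ =>
          ind (Ev C (Γ φ R (pl L u κ (tys X))) (2 * k) (tr ρ) (Qs X u) i)) := by
      intro u κ hκ L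
      rw [hEx u]
      refine (Ex_mono hqn hpn hqpn fun ρ => key u κ L ρ hκ).trans ?_
      rw [Ex_add, Ex_sum]
      simp only [Ex_sum]
      exact le_rfl
    refine (sum_le_sum fun u _ => sum_le_sum fun κ hκ => sum_le_sum fun L _ =>
      h1 u κ hκ L).trans (le_of_eq ?_)
    simp only [sum_add_distrib]
    congr 1
    · refine sum_congr rfl fun u _ => sum_congr rfl fun κ _ => ?_
      rw [Ex_sum]
    · simp only [Ex_sum]
      have e1 : ∀ (u : Fin k → Fin N), ∑ κ ∈ 𝒦, ∑ L : Cd k N → Λ, ∑ i ∈ I, ∑ X ∈ 𝒳,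
          Ex qf pf (fun ρ => ind (Ev C (Γ φ R (pl L u κ (tys X))) (2 * k) (tr ρ) (Qs X u) i)) =
          ∑ i ∈ I, ∑ X ∈ 𝒳, ∑ κ ∈ 𝒦, ∑ L : Cd k N → Λ,
          Ex qf pf (fun ρ => ind (Ev C (Γ φ R (pl L u κ (tys X))) (2 * k) (tr ρ) (Qs X u) i)) := by
        intro u
        have e2 : ∀ κ ∈ 𝒦, ∑ L : Cd k N → Λ, ∑ i ∈ I, ∑ X ∈ 𝒳,
          Ex qf pf (fun ρ => ind (Ev C (Γ φ R (pl L u κ (tys X))) (2 * k) (tr ρ) (Qs X u) i)) =
          ∑ i ∈ I, ∑ X ∈ 𝒳, ∑ L : Cd k N → Λ,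
          Ex qf pf (fun ρ => ind (Ev C (Γ φ R (pl L u κ (tys X))) (2 * k) (tr ρ) (Qs X u) i)) := by
          intro κ _
          rw [sum_comm]
          exact sum_congr rfl fun i _ => sum_comm
        rw [sum_congr rfl e2, sum_comm]
        exact sum_congr rfl fun i _ => sum_comm
      rw [sum_congr rfl fun u _ => e1 u, sum_comm]
      exact sum_congr rfl fun i _ => sum_comm
  simp only [sum_const, card_univ, Fintype.card_fun, Fintype.card_fin, nsmul_eq_mul] at hsum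
  -- the first error
  have hA : M * ∑ u : Fin k → Fin N, ∑ κ ∈ 𝒦,
      Ex qf pf (fun ρ => ∑ L : Cd k N → Λ, ind (Extra R (pl L u κ univ) (tr ρ) u)) ≤
      (N : ℝ) ^ k * (𝒦.card * ((N : ℝ) ^ k * U)) := by
    rw [mul_sum]
    have h1 : ∀ u : Fin k → Fin N, M * ∑ κ ∈ 𝒦,
        Ex qf pf (fun ρ => ∑ L : Cd k N → Λ, ind (Extra R (pl L u κ univ) (tr ρ) u)) ≤
        𝒦.card * ((N : ℝ) ^ k * U) := by
      intro u
      rw [mul_sum]
      have h2 : ∀ κ ∈ 𝒦, M * Ex qf pf (fun ρ => ∑ L : Cd k N → Λ,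
          ind (Extra R (pl L u κ univ) (tr ρ) u)) ≤ (N : ℝ) ^ k * U := by
        intro κ _
        rw [← Ex_mul]
        refine (Ex_mono hqn hpn hqpn fun ρ => ?_).trans (le_of_eq (Ex_const _))
        have h3 := sum_extra hR u κ (tr ρ)
        rw [← hMd, ← hU] at h3
        exact h3
      refine (sum_le_sum h2).trans (le_of_eq ?_)
      rw [sum_const, nsmul_eq_mul]
    refine (sum_le_sum fun u _ => h1 u).trans (le_of_eq ?_)
    rw [sum_const, card_univ, Fintype.card_fun, Fintype.card_fin, Fintype.card_fin, nsmul_eq_mul]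
    push_cast
    rfl
  -- the second error
  have hB : ∀ i ∈ I, ∀ X ∈ 𝒳, ∑ u : Fin k → Fin N, Ex qf pf (fun ρ => ∑ κ ∈ 𝒦,
      ∑ L : Cd k N → Λ, ind (Ev C (Γ φ R (pl L u κ (tys X))) (2 * k) (tr ρ) (Qs X u) i)) ≤
      M ^ (k - 1) * (U * ((N : ℝ) ^ k * E)) := by
    intro i hi X hX
    rw [hI, mem_filter, mem_range] at hi
    rw [h𝒳, mem_filter] at hX
    have hio : i ≤ o := by omega
    have hJ : tys X ≠ univ := by
      intro h
      have h1 := hX.2.2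
      rw [h, card_univ, Fintype.card_fin] at h1
      omega
    have h1 : ∀ u : Fin k → Fin N, Ex qf pf (fun ρ => ∑ κ ∈ 𝒦,
        ∑ L : Cd k N → Λ, ind (Ev C (Γ φ R (pl L u κ (tys X))) (2 * k) (tr ρ) (Qs X u) i)) ≤
        M ^ (k - 1) * ∑ L : Cd k N → Λ, Ex qf pf (fun ρ =>
          ind (Ev C (Γ φ R L) (2 * k) (tr ρ) (Qs X u) i)) := by
      intro u
      rw [← Ex_sum, ← Ex_mul]
      refine Ex_mono hqn hpn hqpn fun ρ => ?_
      have h2 := typical hR hJ u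
        (F := fun L => ind (Ev C (Γ φ R L) (2 * k) (tr ρ) (Qs X u) i)) fun L => ind_nonneg _
      rw [← hMd, ← h𝒦] at h2
      exact h2
    refine (sum_le_sum fun u _ => h1 u).trans ?_
    rw [← mul_sum, sum_comm]
    refine mul_le_mul_of_nonneg_left ?_ (by positivity)
    have h3 : ∀ L : Cd k N → Λ, ∑ u : Fin k → Fin N, Ex qf pf (fun ρ =>
        ind (Ev C (Γ φ R L) (2 * k) (tr ρ) (Qs X u) i)) ≤ (N : ℝ) ^ k * E := by
      intro L
      refine (prob_ev hk0 hN hq0 hq1 hp hqp (hG _ (gamma_loc φ R L)) hio (hC i hio).1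
        (hC i hio).2 X).trans ?_
      exact mul_le_mul_of_nonneg_left (hE _ hX.2.1 hX.2.2) hNk.le
    refine (sum_le_sum fun L _ => h3 L).trans (le_of_eq ?_)
    rw [sum_const, card_univ, nsmul_eq_mul, hUd]
  have hB' : ∑ i ∈ I, ∑ X ∈ 𝒳, ∑ u : Fin k → Fin N, Ex qf pf (fun ρ => ∑ κ ∈ 𝒦,
      ∑ L : Cd k N → Λ, ind (Ev C (Γ φ R (pl L u κ (tys X))) (2 * k) (tr ρ) (Qs X u) i)) ≤
      s * (4 ^ k * (M ^ (k - 1) * (U * ((N : ℝ) ^ k * E)))) := by
    have hpos : 0 ≤ M ^ (k - 1) * (U * ((N : ℝ) ^ k * E)) := by positivity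
    have hXc : (𝒳.card : ℝ) ≤ 4 ^ k := by
      have h3 : 𝒳.card ≤ 4 ^ k := by
        refine (card_le_univ _).trans ?_
        rw [Fintype.card_finset, Fintype.card_prod, Fintype.card_fin, Fintype.card_bool,
          mul_comm, pow_mul]
        norm_num
      exact_mod_cast h3
    have hIs : (I.card : ℝ) ≤ s := by
      have : I.card ≤ s := hs
      exact_mod_cast this
    calc _ ≤ ∑ _i ∈ I, ∑ _X ∈ 𝒳, M ^ (k - 1) * (U * ((N : ℝ) ^ k * E)) :=
          sum_le_sum fun i hi => sum_le_sum fun X hX => hB i hi X hX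
      _ = I.card * (𝒳.card * (M ^ (k - 1) * (U * ((N : ℝ) ^ k * E)))) := by
          rw [sum_const, sum_const, nsmul_eq_mul, nsmul_eq_mul]
      _ ≤ s * (4 ^ k * (M ^ (k - 1) * (U * ((N : ℝ) ^ k * E)))) := by
          gcongr
  -- conclusion
  have hfin : (N : ℝ) ^ k * (𝒦.card * (U * (1 - p) ^ (2 * k))) * M ≤
      (N : ℝ) ^ k * (𝒦.card * ((N : ℝ) ^ k * U)) +
      M * (s * (4 ^ k * (M ^ (k - 1) * (U * ((N : ℝ) ^ k * E))))) := by
    have h1 : (N : ℝ) ^ k * (𝒦.card * (U * (1 - p) ^ (2 * k))) ≤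
        ∑ u : Fin k → Fin N, ∑ κ ∈ 𝒦,
        Ex qf pf (fun ρ => ∑ L : Cd k N → Λ, ind (Extra R (pl L u κ univ) (tr ρ) u)) +
        s * (4 ^ k * (M ^ (k - 1) * (U * ((N : ℝ) ^ k * E)))) := by
      refine le_trans (le_of_eq ?_) (hsum.trans (add_le_add le_rfl hB'))
      rw [hUd, Fintype.card_fun]
      push_cast
      ring
    calc _ = M * ((N : ℝ) ^ k * (𝒦.card * (U * (1 - p) ^ (2 * k)))) := by ring
      _ ≤ M * (∑ u : Fin k → Fin N, ∑ κ ∈ 𝒦,
        Ex qf pf (fun ρ => ∑ L : Cd k N → Λ, ind (Extra R (pl L u κ univ) (tr ρ) u)) +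
        s * (4 ^ k * (M ^ (k - 1) * (U * ((N : ℝ) ^ k * E))))) :=
          mul_le_mul_of_nonneg_left h1 hM0.le
      _ ≤ _ := by
          rw [mul_add]
          exact add_le_add hA le_rfl
  have hMk : M ^ k = M * M ^ (k - 1) := by
    obtain ⟨k', rfl⟩ : ∃ k', k = k' + 1 := ⟨k - 1, by omega⟩
    rw [Nat.add_sub_cancel, pow_succ]
    ring
  have hpos : 0 < (N : ℝ) ^ k * U := mul_pos hNk hU0
  rw [hMk]
  refine le_of_mul_le_mul_left ?_ hpos
  calc (N : ℝ) ^ k * U * (M * 𝒦.card * (1 - p) ^ (2 * k)) =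
      (N : ℝ) ^ k * (𝒦.card * (U * (1 - p) ^ (2 * k))) * M := by ring
    _ ≤ _ := hfin
    _ = _ := by ring

end CliqueDepth
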