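import Pool.Agent.Lib.MP_8fffab_lc_AC.Defs

/-!
# Circuits of small depth for the clique problem: definitions
-/

open Finset

namespace CliqueDepth

open SmallDepth (Circuit bit)

/-- There is a circuit of depth at most `d` with at most `s` gates (inputs and NOT gates are not
counted), whose further gates have at most `f` input wires each, and a threshold gate with
arbitrary real weights `w` and threshold `θ`, which reads all gates of the circuit, such that the
threshold gate decides whether a graph on `Fin n` has a `k`-clique. The inputs of the circuit say
which vertices are adjacent. -/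
def HasCircuit (n k d f s : ℕ) : Prop :=
  ∃ (C : Circuit (Fin n × Fin n)) (o : ℕ) (w : ℕ → ℝ) (θ : ℝ),
    C.size o ≤ s ∧ (∀ i ≤ o, C.depth i ≤ d ∧ (C i).wires ≤ f) ∧
    ∀ G : SimpleGraph (Fin n), ¬ G.CliqueFree k ↔
      θ ≤ ∑ i ∈ range (o + 1), w i * bit (C.val (fun e => G.Adj e.1 e.2) i)

end CliqueDepth
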