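import Pool.Agent.Lib.MP_8fffab_lc_AC.Level
import Pool.Agent.Lib.MP_8fffab_lc_AC.Alive
import Pool.Agent.Lib.MP_678664_lc_AC.Defs

/-!
# The general part: gates which reach a set, and random restrictions

This is the engine of the lower bound for Set Cover (helper49), for inputs which depend on a few
coordinates.
-/

open Finset

namespace CliqueDepth

open SmallDepth

section events

variable {ι Ω : Type} [DecidableEq Ω]

/-- The predecessors of a gate, as natural numbers. -/
def kids {i : ℕ} (S : Finset (Fin i)) : Finset ℕ := S.image fun b : Fin i => (b : ℕ)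

/-- The gate number `i` reaches the set `Q`. -/
def Ev (C : Circuit ι) (a : (Ω → Bool) → ι → Prop) (K : ℕ) (G : Ω → Bool) (Q : Finset Ω)
    (i : ℕ) : Prop :=
  match C i with
  | .input _ => False
  | .not _ => False
  | .and S => ∃ n ≤ K, Reach (gv C a) (gv C a i) (kids S) False G Q n Q
  | .or S => ∃ n ≤ K, Reach (gv C a) (gv C a i) (kids S) True G Q n Q
  | .other _ w _ => Q ⊆ (kids (univ.image w)).biUnion fun j => dep (gv C a j) G Q

theorem mem_kids {i : ℕ} {S : Finset (Fin i)} {j : ℕ} :
    j ∈ kids S ↔ ∃ b ∈ S, (b : ℕ) = j := by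
  unfold kids
  rw [mem_image]

theorem dep_not (v : (Ω → Bool) → Prop) (G : Ω → Bool) (Q : Finset Ω) :
    dep (fun x => ¬ v x) G Q = dep v G Q := by
  ext S
  rw [mem_dep, mem_dep]
  simp only [not_iff_not]

theorem dep_subset_of {v : (Ω → Bool) → Prop} {T : Finset Ω}
    (hT : ∀ x y, (∀ S ∈ T, x S = y S) → (v x ↔ v y)) (G : Ω → Bool) (Q : Finset Ω) :
    dep v G Q ⊆ T := by
  intro S hS
  obtain ⟨hSQ, X, hX, h⟩ := mem_dep.1 hS
  by_contra hST
  apply h
  refine hT _ _ fun S' hS' => ?_
  have : S' ≠ S := fun e => hST (e ▸ hS')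
  unfold fl
  simp [this]

/-- If no gate reaches a set of medium size, then no gate depends on many coordinates. -/
theorem small_dep {C : Circuit ι} {a : (Ω → Bool) → ι → Prop} {o d K : ℕ}
    {G : Ω → Bool} {P : Finset Ω} (hG : ∀ S ∈ P, G S = false) (hK : P.card ≤ K)
    {t : Finset Ω → ℕ} (ht : ∀ U V, U ⊆ V → t U ≤ t V) (ht' : ∀ U V, t (U ∪ V) ≤ t U + t V)
    (ht0 : t ∅ = 0) {w : ℕ} (ha : ∀ e, t (dep (fun x => a x e) G P) ≤ w)
    (hno : ∀ i ≤ o, (C i).counts = true → C.depth i ≤ d → ∀ Q ⊆ P, w < t Q → t Q ≤ 2 * w →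
      ¬ Ev C a K G Q i) :
    ∀ i ≤ o, C.depth i ≤ d → t (dep (gv C a i) G P) ≤ w := by
  classical
  intro i
  induction i using Nat.strong_induction_on with
  | _ i ih =>
  intro hi hd
  by_contra hcon
  push Not at hcon
  rcases hg : C i with v | b | S | S | ⟨r, u, g⟩
  · have h2 : gv C a i = fun x => a x v := by
      funext x
      unfold gv
      rw [val_eq, hg]
    rw [h2] at hcon
    have h4 := ha v
    omega
  · have h2 : gv C a i = fun x => ¬ gv C a b x := by
      funext x
      unfold gv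
      rw [val_eq, hg]
    rw [h2, dep_not] at hcon
    rw [depth_eq, hg] at hd
    have := ih b b.isLt (by have := b.isLt; omega) hd
    omega
  · have hd' : ∀ j ∈ kids S, C.depth j ≤ d := by
      intro j hj
      obtain ⟨b, hb, rfl⟩ := mem_kids.1 hj
      rw [depth_eq, hg] at hd
      have := le_sup (f := fun a : Fin i => C.depth a) hb
      simp only at hd this
      omega
    obtain ⟨Q, hQ, h1, h2, n, hn, h3⟩ := crossing (v := gv C a) (g := gv C a i) (A := kids S)
      (b := False) (by
        intro x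
        have h5 : gv C a i x ↔ ∀ b : Fin i, b ∈ S → gv C a b x := by
          unfold gv
          rw [val_eq, hg]
        rw [h5]
        constructor
        · intro h
          by_contra hcon2
          refine h.1 fun b hb => ?_
          by_contra h6
          exact hcon2 ⟨b, mem_kids.2 ⟨b, hb, rfl⟩, by simpa using h6⟩
        · rintro ⟨j, hj, h6⟩
          obtain ⟨b, hb, rfl⟩ := mem_kids.1 hj
          simp only [iff_false] at h6 ⊢
          exact fun h => h6 (h b hb)) hG ht ht' ht0 (w := w) (by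
        intro j hj
        obtain ⟨b, hb, rfl⟩ := mem_kids.1 hj
        exact ih b b.isLt (by have := b.isLt; omega) (hd' _ hj)) hcon
    refine hno i hi (by rw [hg]; rfl) hd Q hQ h1 h2 ?_
    unfold Ev
    rw [hg]
    exact ⟨n, hn.trans hK, h3⟩
  · have hd' : ∀ j ∈ kids S, C.depth j ≤ d := by
      intro j hj
      obtain ⟨b, hb, rfl⟩ := mem_kids.1 hj
      rw [depth_eq, hg] at hd
      have := le_sup (f := fun a : Fin i => C.depth a) hb
      simp only at hd this
      omega
    obtain ⟨Q, hQ, h1, h2, n, hn, h3⟩ := crossing (v := gv C a) (g := gv C a i) (A := kids S)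
      (b := True) (by
        intro x
        have h5 : gv C a i x ↔ ∃ b : Fin i, b ∈ S ∧ gv C a b x := by
          unfold gv
          rw [val_eq, hg]
        rw [h5]
        simp only [iff_true]
        constructor
        · rintro ⟨b, hb, h⟩
          exact ⟨b, mem_kids.2 ⟨b, hb, rfl⟩, h⟩
        · rintro ⟨j, hj, h6⟩
          obtain ⟨b, hb, rfl⟩ := mem_kids.1 hj
          exact ⟨b, hb, h6⟩) hG ht ht' ht0 (w := w) (by
        intro j hj
        obtain ⟨b, hb, rfl⟩ := mem_kids.1 hj
        exact ih b b.isLt (by have := b.isLt; omega) (hd' _ hj)) hcon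
    refine hno i hi (by rw [hg]; rfl) hd Q hQ h1 h2 ?_
    unfold Ev
    rw [hg]
    exact ⟨n, hn.trans hK, h3⟩
  · have hd' : ∀ l, C.depth (u l) ≤ d := by
      intro l
      rw [depth_eq, hg] at hd
      have := le_sup (f := fun l : Fin r => C.depth (u l)) (mem_univ l)
      simp only at hd this
      omega
    obtain ⟨Q, hQ, h1, h2, h3⟩ := crossing_fun (v := gv C a) (g := gv C a i)
      (A := kids (univ.image u)) (by
        intro x y hxy
        have h5 : ∀ x, gv C a i x ↔ g fun l => gv C a (u l) x := by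
          intro x
          unfold gv
          rw [val_eq, hg]
        rw [h5, h5]
        have : (fun l => gv C a (u l) x) = fun l => gv C a (u l) y := by
          funext l
          exact propext (hxy _ (mem_kids.2 ⟨u l, mem_image_of_mem _ (mem_univ _), rfl⟩))
        rw [this]) hG ht ht' ht0 (w := w) (by
        intro j hj
        obtain ⟨b, hb, rfl⟩ := mem_kids.1 hj
        obtain ⟨l, -, rfl⟩ := mem_image.1 hb
        exact ih (u l) (u l).isLt (by have := (u l).isLt; omega) (hd' l)) hcon
    refine hno i hi (by rw [hg]; rfl) hd Q hQ h1 h2 ?_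
    unfold Ev
    rw [hg]
    exact h3

end events

section general

variable {ι Ω : Type} [DecidableEq Ω]

theorem fl_congr {G G' : Ω → Bool} {Q : Finset Ω} (h : ∀ S, S ∉ Q → G S = G' S) (X : Finset Ω) :
    fl G Q X = fl G' Q X := by
  funext S
  unfold fl
  by_cases hS : S ∈ Q
  · simp [hS]
  · simp [hS, h S hS]

theorem dep_congr {G G' : Ω → Bool} {Q : Finset Ω} (h : ∀ S, S ∉ Q → G S = G' S)
    (v : (Ω → Bool) → Prop) : dep v G Q = dep v G' Q := by
  ext S
  rw [mem_dep, mem_dep]
  simp only [fl_congr h]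

theorem reach_congr {v : ℕ → (Ω → Bool) → Prop} {g : (Ω → Bool) → Prop} {A : Finset ℕ}
    {b : Prop} {G G' : Ω → Bool} {Q : Finset Ω} (h : ∀ S, S ∉ Q → G S = G' S) {n : ℕ}
    {U : Finset Ω} (hR : Reach v g A b G Q n U) : Reach v g A b G' Q n U := by
  induction hR with
  | zero => exact Reach.zero
  | step n U Z hr hZ hl ih =>
    rw [fl_congr h] at hl ⊢
    rw [dep_congr h] at hZ ⊢
    exact Reach.step n U Z ih hZ hl

theorem ev_congr {C : Circuit ι} {a : (Ω → Bool) → ι → Prop} {K : ℕ} {G G' : Ω → Bool}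
    {Q : Finset Ω} (h : ∀ S, S ∉ Q → G S = G' S) (i : ℕ) : Ev C a K G Q i ↔ Ev C a K G' Q i := by
  have h' : ∀ S, S ∉ Q → G' S = G S := fun S hS => (h S hS).symm
  rcases hg : C i with v | b | S | S | ⟨r, u, g⟩ <;> unfold Ev <;> rw [hg]
  · constructor
    · rintro ⟨n, hn, hR⟩; exact ⟨n, hn, reach_congr h hR⟩
    · rintro ⟨n, hn, hR⟩; exact ⟨n, hn, reach_congr h' hR⟩
  · constructor
    · rintro ⟨n, hn, hR⟩; exact ⟨n, hn, reach_congr h hR⟩
    · rintro ⟨n, hn, hR⟩; exact ⟨n, hn, reach_congr h' hR⟩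
  · simp only [dep_congr h]

/-- The size of the sets which contain the reachable sets. -/
def asize (K c₀ f : ℕ) : ℕ := (c₀ + 1) ^ ((K + 1) ^ K) + f * c₀

/-- All reachable sets of free coordinates are contained in a small set. -/
theorem alive_gate {C : Circuit ι} {a : (Ω → Bool) → ι → Prop} {o m d f K : ℕ} (hK : 1 ≤ K)
    {ρ : Restr Ω} (hρ : Good C a o m d ρ) {i : ℕ} (hi : i ≤ o) (hd : C.depth i ≤ d)
    (hf : (C i).wires ≤ f) : ∃ A : Finset Ω, A.card ≤ asize K (2 ^ m) f ∧
      ∀ Q : Finset Ω, (∀ S ∈ Q, ρ S = none) → Q.card ≤ K → Ev C a K (tr ρ) Q i → Q ⊆ A := by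
  classical
  have hJ : ∀ j, ∃ T : Finset Ω, T.card ≤ 2 ^ m ∧ (j ≤ o → C.depth j ≤ d →
      Jun ρ (gv C a j) T) := by
    intro j
    by_cases h : j ≤ o ∧ C.depth j ≤ d
    · obtain ⟨T, hT, hT'⟩ := (hρ j h.1 h.2).junta
      exact ⟨T, by omega, fun _ _ => hT'⟩
    · exact ⟨∅, by simp, fun h1 h2 => absurd ⟨h1, h2⟩ h⟩
  choose T hTc hTJ using hJ
  have hkids : ∀ S : Finset (Fin i), (∀ b ∈ S, C.depth (b : ℕ) ≤ d) →
      ∀ j ∈ kids S, Jun ρ (gv C a j) (T j) := by
    intro S hS j hj
    obtain ⟨b, hb, rfl⟩ := mem_kids.1 hj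
    exact hTJ b (by have := b.isLt; omega) (hS b hb)
  have hreach : ∀ (S : Finset (Fin i)) (b : Prop), (∀ b ∈ S, C.depth (b : ℕ) ≤ d) →
      ∃ A : Finset Ω, A.card ≤ asize K (2 ^ m) f ∧
      ∀ Q : Finset Ω, (∀ S ∈ Q, ρ S = none) → Q.card ≤ K →
        (∃ n ≤ K, Reach (gv C a) (gv C a i) (kids S) b (tr ρ) Q n Q) → Q ⊆ A := by
    intro S b hS
    refine ⟨al (gv C a) (kids S) b ρ T (T i) K K, ?_, ?_⟩
    · have := card_al (gv C a) (kids S) b ρ (T := T) (Tg := T i) hK hTc (hTc i) K
      unfold asize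
      exact (((Nat.le_add_right _ _).trans (Nat.le_succ _)).trans this).trans
        (Nat.le_add_right _ _)
    · rintro Q hQ hQK ⟨n, hn, hR⟩
      exact ((reach_subset (hkids S hS) (hTJ i hi hd) hQ hQK hR).2).trans (al_mono _ _ _ _ _ _ _ hn)
  rcases hg : C i with v | b | S | S | ⟨r, u, g⟩
  · refine ⟨∅, by simp, fun Q _ _ h => ?_⟩
    unfold Ev at h
    rw [hg] at h
    exact h.elim
  · refine ⟨∅, by simp, fun Q _ _ h => ?_⟩
    unfold Ev at h
    rw [hg] at h
    exact h.elim
  · have hS : ∀ b ∈ S, C.depth (b : ℕ) ≤ d := by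
      intro b hb
      rw [depth_eq, hg] at hd
      have := le_sup (f := fun a : Fin i => C.depth a) hb
      simp only at hd this
      omega
    obtain ⟨A, hA, hA'⟩ := hreach S False hS
    refine ⟨A, hA, fun Q hQ hQK h => hA' Q hQ hQK ?_⟩
    unfold Ev at h
    rw [hg] at h
    exact h
  · have hS : ∀ b ∈ S, C.depth (b : ℕ) ≤ d := by
      intro b hb
      rw [depth_eq, hg] at hd
      have := le_sup (f := fun a : Fin i => C.depth a) hb
      simp only at hd this
      omega
    obtain ⟨A, hA, hA'⟩ := hreach S True hS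
    refine ⟨A, hA, fun Q hQ hQK h => hA' Q hQ hQK ?_⟩
    unfold Ev at h
    rw [hg] at h
    exact h
  · have hS : ∀ b ∈ univ.image u, C.depth (b : ℕ) ≤ d := by
      intro b hb
      obtain ⟨l, -, rfl⟩ := mem_image.1 hb
      rw [depth_eq, hg] at hd
      have := le_sup (f := fun l : Fin r => C.depth (u l)) (mem_univ l)
      simp only at hd this
      omega
    refine ⟨(kids (univ.image u)).biUnion T, ?_, ?_⟩
    · refine (card_biUnion_le_card_mul _ _ (2 ^ m) fun j _ => hTc j).trans ?_
      unfold asize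
      have h1 : (kids (univ.image u)).card ≤ f := by
        unfold kids
        refine card_image_le.trans (card_image_le.trans ?_)
        rw [card_univ, Fintype.card_fin]
        rw [hg] at hf
        exact hf
      have := Nat.mul_le_mul_right (2 ^ m) h1
      omega
    · intro Q hQ _ h
      unfold Ev at h
      rw [hg] at h
      intro S hSQ
      obtain ⟨j, hj, hSj⟩ := mem_biUnion.1 (h hSQ)
      exact mem_biUnion.2 ⟨j, hj, dep_subset_jun hQ (hkids _ hS j hj) hSj⟩

end general


section level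

variable {ι Ω : Type} [DecidableEq Ω] [Fintype Ω]

/-- Every input depends on at most `c` coordinates. -/
def IsLoc (c : ℕ) (a : (Ω → Bool) → ι → Prop) : Prop := ∀ e, DT c (fun x => a x e)

omit [Fintype Ω] in
theorem good_zero' {C : Circuit ι} {a : (Ω → Bool) → ι → Prop} {c : ℕ} (ha : IsLoc c a) {o m : ℕ}
    (hm : c ≤ m) (ρ : Restr Ω) : Good C a o m 0 ρ := by
  intro i
  induction i using Nat.strong_induction_on with
  | _ i ih =>
  intro hi hd
  rcases hg : C i with v | b | S | S | ⟨r, w, g⟩
  · have h2 : gv C a i = fun x => a x v := by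
      funext x
      unfold gv
      rw [val_eq, hg]
    rw [h2]
    exact ((ha v).res ρ).mono hm
  · rw [depth_eq, hg] at hd
    simp only at hd
    have h1 := ih b b.isLt (by omega) hd
    have h2 : res ρ (gv C a i) = fun x => ¬ res ρ (gv C a b) x := by
      funext x
      unfold res gv
      rw [val_eq, hg]
    rw [h2]
    exact h1.not
  all_goals
    rw [depth_eq, hg] at hd
    simp at hd

/-- The probability that some gate does not have a shallow decision tree. -/
theorem prob_good' {C : Circuit ι} {a : (Ω → Bool) → ι → Prop} {o m f : ℕ} (ha : IsLoc m a)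
    (hf : ∀ i ≤ o, (C i).wires ≤ f) {θ Λ : ℝ} (hθ1 : θ ≤ 1)
    (P₁ : LPar (fun _ : Ω => θ) (fun _ => (1 - θ) / 2) Λ m f) (hθ0 : 0 ≤ θ) (l : ℕ) :
    Ex (fun _ : Ω => θ ^ l) (fun _ => (1 - θ ^ l) / 2) (fun ρ => ind (¬ Good C a o m l ρ)) ≤
      sizeL C o l * (2 / Λ ^ m) := by
  have hL : 0 < Λ := zero_lt_one.trans_le P₁.L1
  have he : 0 ≤ 2 / Λ ^ m := by positivity
  induction l with
  | zero =>
    have h1 : ∀ ρ : Restr Ω, ind (¬ Good C a o m 0 ρ) = 0 := fun ρ =>
      ind_false (not_not.2 (good_zero' ha le_rfl ρ))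
    simp only [h1]
    rw [Ex_const]
    positivity
  | succ l ih =>
    have hpl0 : 0 ≤ θ ^ l := pow_nonneg hθ0 l
    have hpl1 : θ ^ l ≤ 1 := pow_le_one₀ hθ0 hθ1
    have hps : (fun _ : Ω => (1 - θ ^ (l + 1)) / 2) =
        fun _ => (1 - θ ^ l) / 2 + θ ^ l * ((1 - θ) / 2) := by
      funext S
      ring
    have hqs : (fun _ : Ω => θ ^ (l + 1)) = fun _ => θ ^ l * θ := by
      funext S
      ring
    rw [hps, hqs]
    rw [← Ex_comp (q₁ := fun _ : Ω => θ ^ l) (p₁ := fun _ => (1 - θ ^ l) / 2) (q₂ := fun _ => θ)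
      (p₂ := fun _ => (1 - θ) / 2)]
    have h1 : ∀ ρ₁, Ex (fun _ => θ) (fun _ => (1 - θ) / 2)
        (fun ρ₂ => ind (¬ Good C a o m (l + 1) (comp ρ₁ ρ₂))) ≤
        ind (¬ Good C a o m l ρ₁) + (layer C o l).card * (2 / Λ ^ m) := by
      intro ρ₁
      by_cases hG : Good C a o m l ρ₁
      · rw [ind_false (not_not.2 hG), zero_add]
        have h2 : ∀ ρ₂, ind (¬ Good C a o m (l + 1) (comp ρ₁ ρ₂)) ≤
            ∑ i ∈ layer C o l, ind (¬ DT m (res ρ₂ (res ρ₁ (gv C a i)))) := by
          intro ρ₂
          refine le_trans (ind_mono ?_) (ind_exists_le _ _)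
          intro h
          by_contra hcon
          push Not at hcon
          refine h (good_succ (good_mono hG ρ₂) fun i hi => ?_)
          rw [res_comp]
          exact hcon i hi
        calc _ ≤ Ex (fun _ => θ) (fun _ => (1 - θ) / 2) (fun ρ₂ => ∑ i ∈ layer C o l,
                ind (¬ DT m (res ρ₂ (res ρ₁ (gv C a i))))) := Ex_mono P₁.q0 P₁.p0 P₁.qp h2
          _ = ∑ i ∈ layer C o l, Ex (fun _ => θ) (fun _ => (1 - θ) / 2) (fun ρ₂ =>
                ind (¬ DT m (res ρ₂ (res ρ₁ (gv C a i))))) := Ex_sum _ _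
          _ ≤ ∑ _i ∈ layer C o l, 2 / Λ ^ m := by
              refine sum_le_sum fun i hi => ?_
              have hio : i ≤ o := by
                unfold layer at hi
                rw [mem_filter, mem_range] at hi
                omega
              exact prob_deep P₁.toPar (psi_gate P₁ hG hi (hf i hio)) m
          _ = _ := by rw [sum_const, nsmul_eq_mul]
      · rw [ind_true hG]
        have h2 : Ex (fun _ => θ) (fun _ => (1 - θ) / 2)
            (fun ρ₂ => ind (¬ Good C a o m (l + 1) (comp ρ₁ ρ₂))) ≤ 1 :=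
          Ex_le_one P₁.q0 P₁.p0 P₁.qp fun _ => ind_le_one _
        have : 0 ≤ ((layer C o l).card : ℝ) * (2 / Λ ^ m) := by positivity
        linarith
    calc _ ≤ Ex (fun _ : Ω => θ ^ l) (fun _ => (1 - θ ^ l) / 2)
            (fun ρ₁ => ind (¬ Good C a o m l ρ₁) + (layer C o l).card * (2 / Λ ^ m)) :=
          Ex_mono (fun _ => hpl0) (fun _ => by linarith) (fun _ => by linarith) h1
      _ = Ex (fun _ : Ω => θ ^ l) (fun _ => (1 - θ ^ l) / 2)
            (fun ρ₁ => ind (¬ Good C a o m l ρ₁)) +
            (layer C o l).card * (2 / Λ ^ m) := by rw [Ex_add, Ex_const]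
      _ ≤ sizeL C o l * (2 / Λ ^ m) + (layer C o l).card * (2 / Λ ^ m) := by
          linarith
      _ = _ := by
          have := sizeL_succ C o l
          rw [← this]
          push_cast
          ring

end level


section sign

/-- The sign of an assignment of the states. -/
def sgn {k : ℕ} (x : Fin k → Bool) : ℝ := (-1) ^ (univ.filter fun j => x j = true).card

theorem sgn_flip {k : ℕ} (x : Fin k → Bool) (j : Fin k) :
    sgn (Function.update x j (!(x j))) = - sgn x := by
  unfold sgn
  rcases hx : x j with _ | _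
  · have h1 : (univ.filter fun l => Function.update x j (!false) l = true) =
        insert j (univ.filter fun l => x l = true) := by
      ext l
      by_cases hl : l = j
      · subst hl; simp
      · simp [hl]
    rw [h1, card_insert_of_notMem (by simp [hx]), pow_succ]
    ring
  · have h1 : (univ.filter fun l => Function.update x j (!true) l = true) =
        (univ.filter fun l => x l = true).erase j := by
      ext l
      by_cases hl : l = j
      · subst hl; simp
      · simp [hl]
    have h2 : j ∈ univ.filter fun l => x l = true := by simp [hx]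
    rw [h1]
    have h3 := card_erase_add_one h2
    rw [← h3, pow_succ]
    ring

theorem sum_sgn_eq_zero {k : ℕ} (F : (Fin k → Bool) → ℝ) (j : Fin k)
    (hF : ∀ x, F (Function.update x j (!(x j))) = F x) : ∑ x, sgn x * F x = 0 := by
  have hinv : Function.Involutive fun x : Fin k → Bool => Function.update x j (!(x j)) := by
    intro x
    funext l
    by_cases hl : l = j
    · subst hl; simp
    · simp [Function.update_of_ne hl]
  have h1 : ∑ x, sgn x * F x = ∑ x, sgn (Function.update x j (!(x j))) *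
      F (Function.update x j (!(x j))) :=
    (Equiv.sum_comp (Function.Involutive.toPerm _ hinv) fun x => sgn x * F x).symm
  have h2 : ∑ x, sgn (Function.update x j (!(x j))) * F (Function.update x j (!(x j))) =
      - ∑ x, sgn x * F x := by
    rw [← sum_neg_distrib]
    refine sum_congr rfl fun x _ => ?_
    rw [sgn_flip, hF]
    ring
  linarith

end sign

end CliqueDepth
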