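import Pool.Agent.Lib.MP_678664_lc_AC.PlanDefs

/-! # Row EXTRA: other cliques are rare -/

set_option autoImplicit false

open Finset

namespace CliqueDepth

open SmallDepth

variable {k N n : ℕ} {Λ : Type}

private theorem one_w [Fintype Λ] [DecidableEq Λ] {R : Fin k → Fin k → Λ → Λ → Prop} (hR : Uniq R)
    (u : Fin k → Fin N) (κ : Fin k → Λ) (G : Cd k N → Bool) (w : Fin k → Fin N) (hw : w ≠ u) :
    (Fintype.card Λ : ℝ) * ∑ L : Cd k N → Λ, ind (IsCl R fun i => pl L u κ univ
      ((i, w i), if w i = u i then true else G ((i, w i), false))) ≤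
      (Fintype.card Λ : ℝ) ^ Fintype.card (Cd k N) := by
  classical
  obtain ⟨i, hi⟩ : ∃ i, w i ≠ u i := by
    by_contra h
    push Not at h
    exact hw (funext h)
  set b : Fin k → Bool := fun i => if w i = u i then true else G ((i, w i), false) with hb
  set P : (Cd k N → Λ) → Prop := fun L => IsCl R fun i => pl L u κ univ ((i, w i), b i) with hP
  have h1 : ∑ L : Cd k N → Λ, ind (P L) = ((univ.filter P).card : ℝ) := by
    rw [Finset.card_filter]
    push_cast
    refine Finset.sum_congr rfl fun L _ => ?_
    by_cases h : P L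
    · rw [ind_true h, if_pos h]
    · rw [ind_false h, if_neg h]
  have hpl : ∀ L : Cd k N → Λ, pl L u κ univ ((i, w i), b i) = L ((i, w i), b i) := by
    intro L
    unfold pl
    rw [if_neg]
    rintro ⟨-, -, h⟩
    exact hi h
  have h2 : Fintype.card Λ * (univ.filter P).card ≤ Fintype.card Λ ^ Fintype.card (Cd k N) := by
    have h3 : (univ ×ˢ (univ.filter P) : Finset (Λ × (Cd k N → Λ))).card ≤
        (univ : Finset (Cd k N → Λ)).card := by
      refine Finset.card_le_card_of_injOn (fun p => Function.update p.2 ((i, w i), b i) p.1)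
        (fun _ _ => Finset.mem_coe.2 (Finset.mem_univ _)) ?_
      rintro ⟨a, L⟩ hL ⟨a', L'⟩ hL' h
      rw [Finset.mem_coe, Finset.mem_product, Finset.mem_filter] at hL hL'
      have h4 : ∀ e, Function.update L ((i, w i), b i) a e =
          Function.update L' ((i, w i), b i) a' e := fun e => congrFun h e
      have h5 : a = a' := by
        have := h4 ((i, w i), b i)
        rwa [Function.update_self, Function.update_self] at this
      have h6 : ∀ e, e ≠ ((i, w i), b i) → L e = L' e := by
        intro e he
        have := h4 e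
        rwa [Function.update_of_ne he, Function.update_of_ne he] at this
      have h7 := hR _ _ i hL.2.2 hL'.2.2 (by
        intro j hj
        have hne : (((j, w j), b j) : Cd k N) ≠ ((i, w i), b i) := by
          intro h
          exact hj (congrArg (fun e : Cd k N => e.1.1) h)
        show pl L u κ univ ((j, w j), b j) = pl L' u κ univ ((j, w j), b j)
        unfold pl
        split_ifs
        · rfl
        · exact h6 _ hne)
      have h8 : L ((i, w i), b i) = L' ((i, w i), b i) := by
        have := congrFun h7 i
        rw [← hpl L, ← hpl L']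
        exact this
      refine Prod.ext h5 (funext fun e => ?_)
      by_cases he : e = ((i, w i), b i)
      · rw [he]
        exact h8
      · exact h6 e he
    rw [Finset.card_product, Finset.card_univ, Finset.card_univ, Fintype.card_fun] at h3
    exact h3
  rw [h1]
  exact_mod_cast h2

/-- Row EXTRA: other cliques are rare. Union bound over `w`; for `w i ≠ u i` the label with index
`((i, w i), G ((i, w i), false))` is determined by the other ones (`Uniq`). -/
theorem sum_extra [Fintype Λ] [DecidableEq Λ] {R : Fin k → Fin k → Λ → Λ → Prop} (hR : Uniq R)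
    (u : Fin k → Fin N) (κ : Fin k → Λ) (G : Cd k N → Bool) :
    (Fintype.card Λ : ℝ) * ∑ L : Cd k N → Λ, ind (Extra R (pl L u κ univ) G u) ≤
      (N : ℝ) ^ k * (Fintype.card Λ : ℝ) ^ Fintype.card (Cd k N) := by
  classical
  have h1 : ∀ L : Cd k N → Λ, ind (Extra R (pl L u κ univ) G u) ≤
      ∑ w ∈ (univ : Finset (Fin k → Fin N)).filter (fun w => w ≠ u), ind (IsCl R fun i =>
        pl L u κ univ ((i, w i), if w i = u i then true else G ((i, w i), false))) := by
    intro L
    by_cases h : Extra R (pl L u κ univ) G u
    · obtain ⟨w, hw, hc⟩ := h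
      have h2 : ind (Extra R (pl L u κ univ) G u) = ind (IsCl R fun i =>
          pl L u κ univ ((i, w i), if w i = u i then true else G ((i, w i), false))) := by
        rw [ind_true ⟨w, hw, hc⟩, ind_true hc]
      rw [h2]
      have h3 : w ∈ (univ : Finset (Fin k → Fin N)).filter (fun w => w ≠ u) :=
        Finset.mem_filter.2 ⟨Finset.mem_univ w, hw⟩
      exact Finset.single_le_sum (f := fun w => ind (IsCl R fun i =>
        pl L u κ univ ((i, w i), if w i = u i then true else G ((i, w i), false))))
        (fun _ _ => ind_nonneg _) h3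
    · have h2 : ind (Extra R (pl L u κ univ) G u) = 0 := by
        unfold ind
        rw [if_neg h]
      rw [h2]
      exact Finset.sum_nonneg fun _ _ => ind_nonneg _
  calc (Fintype.card Λ : ℝ) * ∑ L : Cd k N → Λ, ind (Extra R (pl L u κ univ) G u)
      ≤ (Fintype.card Λ : ℝ) * ∑ L : Cd k N → Λ,
        ∑ w ∈ (univ : Finset (Fin k → Fin N)).filter (fun w => w ≠ u), ind (IsCl R fun i =>
          pl L u κ univ ((i, w i), if w i = u i then true else G ((i, w i), false))) := by
        exact mul_le_mul_of_nonneg_left (Finset.sum_le_sum fun L _ => h1 L) (Nat.cast_nonneg _)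
    _ = ∑ w ∈ (univ : Finset (Fin k → Fin N)).filter (fun w => w ≠ u),
        (Fintype.card Λ : ℝ) * ∑ L : Cd k N → Λ, ind (IsCl R fun i =>
          pl L u κ univ ((i, w i), if w i = u i then true else G ((i, w i), false))) := by
        rw [Finset.sum_comm, Finset.mul_sum]
    _ ≤ ∑ w ∈ (univ : Finset (Fin k → Fin N)).filter (fun w => w ≠ u),
        (Fintype.card Λ : ℝ) ^ Fintype.card (Cd k N) := by
        refine Finset.sum_le_sum fun w hw => ?_
        exact one_w hR u κ G w (Finset.mem_filter.1 hw).2
    _ = (((univ : Finset (Fin k → Fin N)).filter (fun w => w ≠ u)).card : ℝ) *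
        (Fintype.card Λ : ℝ) ^ Fintype.card (Cd k N) := by
        rw [Finset.sum_const, nsmul_eq_mul]
    _ ≤ (N : ℝ) ^ k * (Fintype.card Λ : ℝ) ^ Fintype.card (Cd k N) := by
        refine mul_le_mul_of_nonneg_right ?_ (pow_nonneg (Nat.cast_nonneg _) _)
        have h2 : ((univ : Finset (Fin k → Fin N)).filter (fun w => w ≠ u)).card ≤ N ^ k := by
          refine (Finset.card_filter_le _ _).trans ?_
          rw [Finset.card_univ, Fintype.card_fun, Fintype.card_fin, Fintype.card_fin]
        exact_mod_cast h2

end CliqueDepth
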