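import Pool.Agent.Lib.MP_678664_lc_AC.PlanDefs

/-! # Row GRAPH -/

open Finset

namespace CliqueDepth

open SmallDepth

variable {k N n : ℕ} {Λ : Type}

/-- the parity of a prefix -/
private def pp {k : ℕ} (s : Fin k → Bool) (m : ℕ) : Bool :=
  decide (Odd (univ.filter fun i : Fin k => (i : ℕ) < m ∧ s i = true).card)

private lemma pp_zero {k : ℕ} (s : Fin k → Bool) : pp s 0 = false := by
  simp [pp]

private lemma pp_last {k : ℕ} (s : Fin k → Bool) :
    pp s k = true ↔ Odd (univ.filter fun i : Fin k => s i = true).card := by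
  simp [pp]

private lemma pp_succ {k : ℕ} (s : Fin k → Bool) (m : ℕ) (hm : m < k) :
    pp s (m + 1) = xor (pp s m) (s ⟨m, hm⟩) := by
  unfold pp
  cases h : s ⟨m, hm⟩
  · have h1 : (univ.filter fun i : Fin k => (i : ℕ) < m + 1 ∧ s i = true) =
        univ.filter fun i : Fin k => (i : ℕ) < m ∧ s i = true := by
      ext i
      simp only [mem_filter, mem_univ, true_and]
      constructor
      · rintro ⟨h1, h2⟩
        refine ⟨?_, h2⟩
        by_contra h3
        have h4 : i = ⟨m, hm⟩ := Fin.ext (by simp only; omega)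
        rw [h4, h] at h2
        exact absurd h2 (by simp)
      · rintro ⟨h1, h2⟩
        exact ⟨by omega, h2⟩
    rw [h1, Bool.xor_false]
  · have h1 : (univ.filter fun i : Fin k => (i : ℕ) < m + 1 ∧ s i = true) =
        insert ⟨m, hm⟩ (univ.filter fun i : Fin k => (i : ℕ) < m ∧ s i = true) := by
      ext i
      simp only [mem_insert, mem_filter, mem_univ, true_and]
      constructor
      · rintro ⟨h1, h2⟩
        by_cases h3 : (i : ℕ) < m
        · exact Or.inr ⟨h3, h2⟩
        · exact Or.inl (Fin.ext (by simp only; omega))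
      · rintro (rfl | ⟨h1, h2⟩)
        · exact ⟨Nat.lt_succ_self m, h⟩
        · exact ⟨by omega, h2⟩
    rw [h1, card_insert_of_notMem (by simp), Bool.xor_true]
    simp only [Nat.odd_add_one, decide_not]

/-- Row GRAPH: cliques of the graph. -/
theorem graph_clique (hk : 2 ≤ k) (φ : Un k N × Bool ↪ Fin n)
    (R : Fin k → Fin k → Λ → Λ → Prop) (L : Cd k N → Λ) (x : Cd k N → Bool) :
    ¬ (gr φ R L x).CliqueFree k ↔ ∃ w : Fin k → Fin N,
      IsCl R (fun i => lab L x (i, w i)) ∧
        Odd (univ.filter fun i : Fin k => x ((i, w i), true) = true).card := by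
  rw [SimpleGraph.not_cliqueFree_iff_top_isContained]
  constructor
  · rintro ⟨f⟩
    have hadj : ∀ i j : Fin k, i ≠ j → (gr φ R L x).Adj (f i) (f j) := by
      intro i j hij
      exact f.toHom.map_adj hij
    have hv : ∀ i : Fin k, ∃ v : Un k N × Bool, φ v = f i := by
      intro i
      obtain ⟨j, hj⟩ : ∃ j : Fin k, i ≠ j := by
        by_cases h : (i : ℕ) = 0
        · exact ⟨⟨1, by omega⟩, fun h' => by rw [h'] at h; simp at h⟩
        · exact ⟨⟨0, by omega⟩, fun h' => h (by rw [h'])⟩
      obtain ⟨a, b, h, -⟩ := hadj i j hj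
      rcases h with h | h
      · exact ⟨a, h.1⟩
      · exact ⟨b, h.1⟩
    choose v hv using hv
    have hvv : ∀ i j : Fin k, i ≠ j → adjL R L x (v i) (v j) ∨ adjL R L x (v j) (v i) := by
      intro i j hij
      obtain ⟨a, b, h, h'⟩ := hadj i j hij
      rcases h with h | h
      · rw [← hv i, ← hv j] at h
        rw [φ.injective h.1, φ.injective h.2] at h'
        exact Or.inl h'
      · rw [← hv i, ← hv j] at h
        rw [φ.injective h.1, φ.injective h.2] at h'
        exact Or.inr h'
    have hinj : Function.Injective fun i : Fin k => (v i).1.1 := by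
      intro i j hij
      by_contra h
      rcases hvv i j h with h' | h'
      · exact absurd h'.1 (by simp only at hij; rw [hij]; exact lt_irrefl _)
      · exact absurd h'.1 (by simp only at hij; rw [hij]; exact lt_irrefl _)
    have hsur := Finite.injective_iff_surjective.1 hinj
    choose σ hσ using hsur
    simp only at hσ
    have hlt : ∀ i j : Fin k, i < j → adjL R L x (v (σ i)) (v (σ j)) := by
      intro i j hij
      have hne : σ i ≠ σ j := by
        intro h
        have h1 := hσ i
        rw [h, hσ j] at h1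
        exact absurd h1 (ne_of_gt hij)
      rcases hvv _ _ hne with h | h
      · exact h
      · have h1 := h.1
        rw [hσ i, hσ j] at h1
        exact absurd h1 (not_lt.2 hij.le)
    have hu : ∀ i, (v (σ i)).1 = (i, (v (σ i)).1.2) := fun i => Prod.ext (hσ i) rfl
    refine ⟨fun i => (v (σ i)).1.2, ?_, ?_⟩
    · intro i j hij
      have h1 := (hlt i j hij).2.1
      rw [hσ i, hσ j] at h1
      simp only [← hu]
      exact h1
    · simp only [← hu]
      rw [← pp_last fun i => x ((v (σ i)).1, true)]
      have h0 : (v (σ ⟨0, by omega⟩)).2 = false :=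
        (hlt ⟨0, by omega⟩ ⟨1, by omega⟩ (by simp [Fin.lt_def])).2.2.1 (by rw [hσ])
      have hrec : ∀ m, ∀ hm : m < k,
          (v (σ ⟨m, hm⟩)).2 = pp (fun i => x ((v (σ i)).1, true)) m := by
        intro m
        induction m with
        | zero => intro hm; rw [pp_zero]; exact h0
        | succ m ih =>
          intro hm
          rw [pp_succ _ m (by omega), ← ih (by omega)]
          exact (hlt ⟨m, by omega⟩ ⟨m + 1, hm⟩ (by simp [Fin.lt_def])).2.2.2.1 (by rw [hσ, hσ])
      obtain ⟨m, rfl⟩ : ∃ m, k = m + 1 := ⟨k - 1, by omega⟩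
      rw [pp_succ _ m (by omega), ← hrec m (by omega)]
      exact (hlt ⟨0, by omega⟩ ⟨m, by omega⟩ (by simp [Fin.lt_def]; omega)).2.2.2.2 (by rw [hσ])
  · rintro ⟨w, hw, hodd⟩
    have hlt : ∀ i j : Fin k, i < j →
        adjL R L x ((i, w i), pp (fun i => x ((i, w i), true)) i)
          ((j, w j), pp (fun i => x ((i, w i), true)) j) := by
      intro i j hij
      refine ⟨hij, hw i j hij, ?_, ?_, ?_⟩
      · intro h
        simp only at h
        simp only [h]
        exact pp_zero _
      · intro h
        simp only at h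
        simp only [← h]
        exact pp_succ _ _ i.2
      · intro h
        simp only at h
        rw [← pp_last fun i => x ((i, w i), true)] at hodd
        have h1 := pp_succ (fun i => x ((i, w i), true)) j j.2
        rw [h, hodd] at h1
        exact h1.symm
    refine ⟨⟨⟨fun i => φ ((i, w i), pp (fun i => x ((i, w i), true)) i), ?_⟩, ?_⟩⟩
    · intro i j hij
      have hij' : i ≠ j := hij
      rcases lt_or_gt_of_ne hij' with h | h
      · exact ⟨_, _, Or.inl ⟨rfl, rfl⟩, hlt i j h⟩
      · exact ⟨_, _, Or.inr ⟨rfl, rfl⟩, hlt j i h⟩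
    · intro i j hij
      have h1 := φ.injective hij
      exact congrArg (fun a => a.1.1) h1

end CliqueDepth
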