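import Pool.Agent.Lib.MP_678664_lc_AC.PlanDefs

/-! # Row HYB -/

open Finset

namespace CliqueDepth

open SmallDepth

variable {k N n : ℕ} {Λ : Type}

private theorem fl_planted (G : Cd k N → Bool) (u : Fin k → Fin N) (x : Fin k → Bool)
    (i : Fin k) :
    fl G (Ph u) (Xs u x) ((i, u i), false) = true ∧
      fl G (Ph u) (Xs u x) ((i, u i), true) = x i := by
  have hmem : ∀ b : Bool, ((i, u i), b) ∈ Ph u := fun b =>
    mem_image.2 ⟨(i, b), mem_univ _, rfl⟩
  unfold fl
  rw [if_pos (hmem false), if_pos (hmem true)]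
  constructor
  · simp [Xs, hmem]
  · cases hx : x i <;> simp [Xs, hmem, hx]

private theorem fl_other (G : Cd k N → Bool) (u : Fin k → Fin N) (x : Fin k → Bool)
    {i : Fin k} {m : Fin N} (h : m ≠ u i) (b : Bool) :
    fl G (Ph u) (Xs u x) ((i, m), b) = G ((i, m), b) := by
  have hnot : ((i, m), b) ∉ Ph u := by
    intro hm
    obtain ⟨e, _, he⟩ := mem_image.1 hm
    have h1 : e.1 = i := congrArg (fun q => q.1.1) he
    have h2 : u e.1 = m := congrArg (fun q => q.1.2) he
    rw [h1] at h2
    exact h h2.symm
  unfold fl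
  rw [if_neg hnot]

/-- Row HYB, with the statement of row GRAPH as a hypothesis. -/
theorem hybrid_of (φ : Un k N × Bool ↪ Fin n) {R : Fin k → Fin k → Λ → Λ → Prop}
    (hgr : ∀ (L : Cd k N → Λ) (x : Cd k N → Bool),
      ¬ (gr φ R L x).CliqueFree k ↔ ∃ w : Fin k → Fin N,
        IsCl R (fun i => lab L x (i, w i)) ∧
          Odd (univ.filter fun i : Fin k => x ((i, w i), true) = true).card)
    (L : Cd k N → Λ) {κ : Fin k → Λ} (hκ : IsCl R κ) (G : Cd k N → Bool) (u : Fin k → Fin N)
    (x : Fin k → Bool) :
    (Odd (univ.filter fun i => x i = true).card →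
      ¬ (gr φ R (pl L u κ univ) (fl G (Ph u) (Xs u x))).CliqueFree k) ∧
    (¬ Extra R (pl L u κ univ) G u →
      ¬ (gr φ R (pl L u κ univ) (fl G (Ph u) (Xs u x))).CliqueFree k →
      Odd (univ.filter fun i => x i = true).card) := by
  have hset : (univ.filter fun i : Fin k =>
      fl G (Ph u) (Xs u x) ((i, u i), true) = true) = univ.filter fun i => x i = true := by
    refine filter_congr fun i _ => ?_
    rw [(fl_planted G u x i).2]
  constructor
  · intro hodd
    rw [hgr]
    refine ⟨u, ?_, by rw [hset]; exact hodd⟩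
    have : (fun i => lab (pl L u κ univ) (fl G (Ph u) (Xs u x)) (i, u i)) = κ := by
      funext i
      unfold lab
      rw [(fl_planted G u x i).1]
      unfold pl
      simp
    rw [this]
    exact hκ
  · intro hex hcl
    rw [hgr] at hcl
    obtain ⟨w, hw, hodd⟩ := hcl
    have hwu : w = u := by
      by_contra hne
      refine hex ⟨w, hne, ?_⟩
      have : (fun i => lab (pl L u κ univ) (fl G (Ph u) (Xs u x)) (i, w i)) =
          fun i => pl L u κ univ ((i, w i), if w i = u i then true else G ((i, w i), false)) := by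
        funext i
        unfold lab
        by_cases h : w i = u i
        · rw [if_pos h, h, (fl_planted G u x i).1]
        · rw [if_neg h, fl_other G u x h]
      rw [← this]
      exact hw
    subst hwu
    rwa [hset] at hodd

end CliqueDepth
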