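import Pool.Agent.Lib.MP_678664_lc_AC.PlanDefs

/-! # Row PROBU -/

open Finset

namespace CliqueDepth

open SmallDepth

variable {k N n : ℕ} {Λ : Type}

private theorem ind_mul_ind' (P Q : Prop) : ind P * ind Q = ind (P ∧ Q) := (ind_and P Q).symm

private theorem sum_ind_le' {α : Type*} (s t : Finset α) (P : α → Prop)
    (h : ∀ a ∈ s, P a → a ∈ t) : ∑ a ∈ s, ind (P a) ≤ t.card := by
  classical
  calc ∑ a ∈ s, ind (P a) ≤ ∑ a ∈ s.filter fun a => P a, (1 : ℝ) := by
        rw [sum_filter]
        refine sum_le_sum fun a _ => ?_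
        by_cases hP : P a
        · rw [ind_true hP, if_pos hP]
        · rw [ind_false hP, if_neg hP]
    _ = ((s.filter fun a => P a).card : ℝ) := by simp
    _ ≤ t.card := by
        exact_mod_cast card_le_card fun a ha => h a (mem_filter.1 ha).1 (mem_filter.1 ha).2

private theorem card_Qs_le (X : Finset (Fin k × Bool)) (u : Fin k → Fin N) :
    (Qs X u).card ≤ X.card := card_image_le

private theorem card_le_two_tys (X : Finset (Fin k × Bool)) : X.card ≤ 2 * (tys X).card := by
  calc X.card ≤ (tys X ×ˢ (univ : Finset Bool)).card := by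
        refine card_le_card fun e he => ?_
        rw [mem_product]
        exact ⟨mem_image_of_mem _ he, mem_univ _⟩
    _ = 2 * (tys X).card := by
        rw [card_product, card_univ, Fintype.card_bool, mul_comm]

/-- Row PROBU: planted units are rarely reached. -/
theorem prob_ev {ι : Type} {C : Circuit ι} {a : (Cd k N → Bool) → ι → Prop} {o m d f : ℕ}
    (hk : 0 < k) (hN : 0 < N) {q p : ℝ} (hq0 : 0 < q) (hq1 : q ≤ 1) (hp : 0 ≤ p)
    (hqp : q + p ≤ 1) {ε₁ : ℝ}
    (hG : Ex (fun _ : Cd k N => q) (fun _ => p) (fun ρ => ind (¬ Good C a o m d ρ)) ≤ ε₁)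
    {i : ℕ} (hi : i ≤ o) (hd : C.depth i ≤ d) (hf : (C i).wires ≤ f)
    (X : Finset (Fin k × Bool)) :
    ∑ u : Fin k → Fin N, Ex (fun _ : Cd k N => q) (fun _ => p)
      (fun ρ => ind (Ev C a (2 * k) (tr ρ) (Qs X u) i)) ≤
      (N : ℝ) ^ k * ((q ^ (2 * (tys X).card))⁻¹ *
        (((asize (2 * k) (2 ^ m) f : ℕ) : ℝ) ^ (tys X).card / (N : ℝ) ^ (tys X).card + ε₁)) := by
  classical
  set J := tys X with hJ
  set Q : Cd k N → ℝ := fun _ => q with hQdef
  set P : Cd k N → ℝ := fun _ => p with hPdef
  have hqn : ∀ S, 0 ≤ Q S := fun S => hq0.le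
  have hpn : ∀ S, 0 ≤ P S := fun S => hp
  have hqpn : ∀ S, Q S + P S ≤ 1 := fun S => hqp
  have hNR : (0 : ℝ) < N := by exact_mod_cast hN
  set Φ : (Fin k → Fin N) → ℝ := fun u =>
    Ex Q P (fun ρ => ind (Ev C a (2 * k) (tr ρ) (Qs X u) i)) with hΦ
  have hΦ0 : ∀ u, 0 ≤ Φ u := fun u => Ex_nonneg hqn hpn hqpn fun _ => ind_nonneg _
  have hq2 : 0 < q ^ (2 * J.card) := pow_pos hq0 _
  have hJk : J.card ≤ k := (card_le_univ J).trans (by rw [Fintype.card_fin])
  -- the free coordinates
  have h2 : ∀ u, q ^ (2 * J.card) * Φ u ≤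
      Ex Q P (fun ρ => ind ((∀ S ∈ Qs X u, ρ S = none) ∧
        Ev C a (2 * k) (tr ρ) (Qs X u) i)) := by
    intro u
    have h3 : Ex Q P (fun ρ => ind ((∀ S ∈ Qs X u, ρ S = none) ∧
        Ev C a (2 * k) (tr ρ) (Qs X u) i)) = (∏ S ∈ Qs X u, Q S) * Φ u := by
      rw [hΦ]
      simp only
      rw [← Ex_free (q := Q) (p := P) (Qs X u)
        (fun ρ => ind (Ev C a (2 * k) (tr ρ) (Qs X u) i))]
      · exact Ex_congr fun ρ => (ind_mul_ind' _ _).symm
      · intro S hS ρ b
        congr 1
        apply propext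
        refine ev_congr (fun S' hS' => ?_) i
        unfold tr
        rw [Function.update_of_ne (fun e => hS' (by rw [e]; exact hS))]
    rw [h3, hQdef, prod_const]
    refine mul_le_mul_of_nonneg_right ?_ (hΦ0 u)
    exact pow_le_pow_of_le_one hq0.le hq1 ((card_Qs_le X u).trans (card_le_two_tys X))
  -- pointwise
  have h4 : ∀ ρ : Restr (Cd k N), ∑ u : Fin k → Fin N,
      ind ((∀ S ∈ Qs X u, ρ S = none) ∧ Ev C a (2 * k) (tr ρ) (Qs X u) i) ≤
      (asize (2 * k) (2 ^ m) f : ℝ) ^ J.card * (N : ℝ) ^ (k - J.card) + (N : ℝ) ^ k *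
        ind (¬ Good C a o m d ρ) := by
    intro ρ
    by_cases hρ : Good C a o m d ρ
    · rw [ind_false (not_not.2 hρ), mul_zero, add_zero]
      obtain ⟨A, hA, hA'⟩ := alive_gate (K := 2 * k) (by omega) hρ hi hd hf
      have hXc : X.card ≤ 2 * k := by
        refine (card_le_univ X).trans ?_
        rw [Fintype.card_prod, Fintype.card_fin, Fintype.card_bool, mul_comm]
      set B := A.image fun e : Cd k N => e.1.2 with hB
      refine (sum_ind_le' univ (Fintype.piFinset fun j : Fin k =>
        if j ∈ J then B else univ) _ ?_).trans ?_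
      · rintro u - ⟨hfree, hev⟩
        have h5 := hA' (Qs X u) hfree ((card_Qs_le X u).trans hXc) hev
        rw [Fintype.mem_piFinset]
        intro j
        by_cases hj : j ∈ J
        · rw [if_pos hj]
          obtain ⟨e, he, rfl⟩ := mem_image.1 hj
          rw [hB, mem_image]
          exact ⟨((e.1, u e.1), e.2), h5 (mem_image_of_mem _ he), rfl⟩
        · rw [if_neg hj]
          exact mem_univ _
      · have h6 : B.card ≤ asize (2 * k) (2 ^ m) f := card_image_le.trans hA
        have h7 : (Fintype.piFinset fun j : Fin k =>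
            if j ∈ J then B else (univ : Finset (Fin N))).card =
            B.card ^ J.card * N ^ (k - J.card) := by
          rw [Fintype.card_piFinset]
          have h8 : ∀ j : Fin k, (if j ∈ J then B else (univ : Finset (Fin N))).card =
              if j ∈ J then B.card else N := by
            intro j
            split_ifs
            · rfl
            · rw [card_univ, Fintype.card_fin]
          simp only [h8]
          rw [prod_ite, prod_const, prod_const]
          congr 2
          · congr 1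
            ext j
            simp
          · rw [filter_not, filter_mem_eq_inter, univ_inter, ← compl_eq_univ_sdiff, card_compl,
              Fintype.card_fin]
        rw [h7]
        push_cast
        refine mul_le_mul_of_nonneg_right ?_ (by positivity)
        exact pow_le_pow_left₀ (by positivity) (by exact_mod_cast h6) _
    · rw [ind_true hρ, mul_one]
      refine (sum_ind_le' univ univ _ fun T hT _ => hT).trans ?_
      rw [card_univ, Fintype.card_fun, Fintype.card_fin, Fintype.card_fin]
      push_cast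
      have : (0 : ℝ) ≤ (asize (2 * k) (2 ^ m) f : ℝ) ^ J.card * (N : ℝ) ^ (k - J.card) := by
        positivity
      linarith
  have h5 : q ^ (2 * J.card) * ∑ u, Φ u ≤
      (asize (2 * k) (2 ^ m) f : ℝ) ^ J.card * (N : ℝ) ^ (k - J.card) + (N : ℝ) ^ k * ε₁ := by
    rw [mul_sum]
    refine (sum_le_sum fun u _ => h2 u).trans ?_
    rw [← Ex_sum]
    refine (Ex_mono hqn hpn hqpn h4).trans ?_
    rw [Ex_add, Ex_const, Ex_mul]
    have : (0 : ℝ) ≤ (N : ℝ) ^ k := by positivity
    have := mul_le_mul_of_nonneg_left hG this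
    linarith
  have h6 : (N : ℝ) ^ k * ((asize (2 * k) (2 ^ m) f : ℝ) ^ J.card / (N : ℝ) ^ J.card + ε₁) =
      (asize (2 * k) (2 ^ m) f : ℝ) ^ J.card * (N : ℝ) ^ (k - J.card) + (N : ℝ) ^ k * ε₁ := by
    have h7 : (N : ℝ) ^ k = (N : ℝ) ^ J.card * (N : ℝ) ^ (k - J.card) := by
      rw [← pow_add, Nat.add_sub_cancel' hJk]
    rw [mul_add]
    congr 1
    rw [h7]
    field_simp
  rw [mul_left_comm, h6, ← div_eq_inv_mul, le_div_iff₀ hq2, mul_comm]
  exact h5

end CliqueDepth
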