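import Pool.Agent.Lib.MP_678664_lc_AC.PlanDefs

/-! # Row TEMPLATE -/

open Finset

namespace CliqueDepth

open SmallDepth

variable {k N n : ℕ} {Λ : Type}

private def dt {D : ℕ} (a b : Fin D → ℕ) : ℕ := ∑ d, a d * b d

private def vv {D B : ℕ} (l : Fin D → Fin B) : Fin D → ℕ := fun d => (l d : ℕ)

private def ss {k D B : ℕ} (κ : Fin k → Fin D → Fin B) : Fin D → ℕ := fun d => ∑ i, vv (κ i) d

private def RR {k D B : ℕ} (κ₀ : Fin k → Fin D → Fin B) (i j : Fin k) (l m : Fin D → Fin B) :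
    Prop :=
  dt (vv l) (vv m) = dt (vv (κ₀ i)) (vv (κ₀ j)) ∧ dt (vv l) (vv l) = dt (vv (κ₀ i)) (vv (κ₀ i)) ∧
    dt (vv m) (vv m) = dt (vv (κ₀ j)) (vv (κ₀ j)) ∧ dt (vv l) (ss κ₀) = dt (vv (κ₀ i)) (ss κ₀) ∧
    dt (vv m) (ss κ₀) = dt (vv (κ₀ j)) (ss κ₀)

private lemma dt_comm {D : ℕ} (a b : Fin D → ℕ) : dt a b = dt b a :=
  Finset.sum_congr rfl fun _ _ => mul_comm _ _

private lemma dt_sum_left {k D : ℕ} (a : Fin k → Fin D → ℕ) (b : Fin D → ℕ) :
    dt (fun d => ∑ i, a i d) b = ∑ i, dt (a i) b := by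
  unfold dt
  rw [Finset.sum_comm]
  exact Finset.sum_congr rfl fun d _ => by rw [Finset.sum_mul]

private lemma dt_ss_left {k D B : ℕ} (κ : Fin k → Fin D → Fin B) (b : Fin D → ℕ) :
    dt (ss κ) b = ∑ i, dt (vv (κ i)) b := dt_sum_left (fun i => vv (κ i)) b

private lemma dt_ss_ss {k D B : ℕ} (κ : Fin k → Fin D → Fin B) :
    dt (ss κ) (ss κ) = ∑ i, ∑ j, dt (vv (κ i)) (vv (κ j)) := by
  rw [dt_ss_left]
  refine Finset.sum_congr rfl fun i _ => ?_
  rw [dt_comm, dt_ss_left]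
  exact Finset.sum_congr rfl fun j _ => dt_comm _ _

private lemma ss_eq {k D B : ℕ} (hk : 2 ≤ k) {κ₀ κ : Fin k → Fin D → Fin B}
    (h : IsCl (RR κ₀) κ) : ss κ = ss κ₀ := by
  have hself : ∀ i, dt (vv (κ i)) (vv (κ i)) = dt (vv (κ₀ i)) (vv (κ₀ i)) ∧
      dt (vv (κ i)) (ss κ₀) = dt (vv (κ₀ i)) (ss κ₀) := by
    intro i
    by_cases hi : (i : ℕ) = 0
    · have h1 := h i ⟨1, by omega⟩ (by rw [Fin.lt_def, hi]; exact Nat.one_pos)
      exact ⟨h1.2.1, h1.2.2.2.1⟩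
    · have h1 := h ⟨0, by omega⟩ i (by rw [Fin.lt_def]; exact Nat.pos_of_ne_zero hi)
      exact ⟨h1.2.2.1, h1.2.2.2.2⟩
  have hpair : ∀ i j, dt (vv (κ i)) (vv (κ j)) = dt (vv (κ₀ i)) (vv (κ₀ j)) := by
    intro i j
    rcases lt_trichotomy i j with hij | rfl | hij
    · exact (h i j hij).1
    · exact (hself i).1
    · rw [dt_comm, dt_comm (vv (κ₀ i))]
      exact (h j i hij).1
  have h1 : dt (ss κ) (ss κ) = dt (ss κ₀) (ss κ₀) := by
    rw [dt_ss_ss, dt_ss_ss]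
    exact Finset.sum_congr rfl fun i _ => Finset.sum_congr rfl fun j _ => hpair i j
  have h2 : dt (ss κ) (ss κ₀) = dt (ss κ₀) (ss κ₀) := by
    rw [dt_ss_left κ, dt_ss_left κ₀]
    exact Finset.sum_congr rfl fun i _ => (hself i).2
  have h3 : ∑ d, ((ss κ d : ℤ) - ss κ₀ d) ^ 2 = 0 := by
    have e1 : ∑ d, ((ss κ d : ℤ) - ss κ₀ d) ^ 2 =
        (dt (ss κ) (ss κ) : ℤ) - 2 * (dt (ss κ) (ss κ₀) : ℤ) + (dt (ss κ₀) (ss κ₀) : ℤ) := by
      unfold dt
      push_cast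
      rw [Finset.mul_sum, ← Finset.sum_sub_distrib, ← Finset.sum_add_distrib]
      exact Finset.sum_congr rfl fun d _ => by ring
    rw [e1, h1, h2]
    ring
  funext d
  have h4 := (Finset.sum_eq_zero_iff_of_nonneg fun d _ => sq_nonneg ((ss κ d : ℤ) - ss κ₀ d)).1 h3
    d (mem_univ d)
  have h5 : (ss κ d : ℤ) - ss κ₀ d = 0 := by
    exact pow_eq_zero_iff (two_ne_zero) |>.1 h4
  have h6 : (ss κ d : ℤ) = ss κ₀ d := by linarith
  exact_mod_cast h6

private lemma uniq_RR {k D B : ℕ} (hk : 2 ≤ k) (κ₀ : Fin k → Fin D → Fin B) : Uniq (RR κ₀) := by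
  intro κ κ' l hκ hκ' h
  have h1 : ss κ = ss κ' := (ss_eq hk hκ).trans (ss_eq hk hκ').symm
  funext i
  by_cases hi : i = l
  · subst hi
    funext d
    have h2 := congrFun h1 d
    unfold ss at h2
    rw [← Finset.add_sum_erase univ (fun j => vv (κ j) d) (mem_univ i),
      ← Finset.add_sum_erase univ (fun j => vv (κ' j) d) (mem_univ i)] at h2
    have h3 : ∑ j ∈ univ.erase i, vv (κ j) d = ∑ j ∈ univ.erase i, vv (κ' j) d :=
      Finset.sum_congr rfl fun j hj => by rw [h j (Finset.ne_of_mem_erase hj)]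
    rw [h3] at h2
    exact Fin.ext (Nat.add_right_cancel h2)
  · exact h i hi

private lemma vv_lt {D B : ℕ} (l : Fin D → Fin B) (d : Fin D) : vv l d < B := (l d).2

private lemma pigeon {X Y : Type} [DecidableEq Y] (s : Finset X) (t : Finset Y) (f : X → Y)
    (hf : ∀ x ∈ s, f x ∈ t) (hs : s.Nonempty) :
    ∃ x ∈ s, s.card ≤ t.card * (s.filter fun z => f z = f x).card := by
  have ht : t.Nonempty := by
    obtain ⟨x, hx⟩ := hs
    exact ⟨f x, hf x hx⟩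
  have h1 : s.card = ∑ y ∈ t, (s.filter fun z => f z = y).card :=
    Finset.card_eq_sum_card_fiberwise hf
  obtain ⟨y, hy, hy'⟩ := Finset.exists_le_of_sum_le (f := fun _ => s.card)
    (g := fun y => t.card * (s.filter fun z => f z = y).card) ht (by
      rw [Finset.sum_const, smul_eq_mul, ← Finset.mul_sum, ← h1])
  have h2 : (s.filter fun z => f z = y).Nonempty := by
    rw [Finset.nonempty_iff_ne_empty]
    intro h3
    rw [h3, card_empty, mul_zero] at hy'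
    exact absurd (Finset.card_pos.2 hs) (by omega)
  obtain ⟨x, hx⟩ := h2
  rw [mem_filter] at hx
  refine ⟨x, hx.1, ?_⟩
  rw [hx.2]
  exact hy'

private lemma count {k D B : ℕ} (hB : 2 ≤ B) :
    ∃ κ₀ : Fin k → Fin D → Fin B, (B ^ D) ^ k ≤
      ((k * B + 1) ^ D * ((k * D * B ^ 2 + 1) ^ (k * k + k))) *
        Nat.card {κ : Fin k → Fin D → Fin B // IsCl (RR κ₀) κ} := by
  classical
  have hne : (univ : Finset (Fin k → Fin D → Fin B)).Nonempty :=
    ⟨fun _ _ => ⟨0, by omega⟩, mem_univ _⟩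
  obtain ⟨κ₀, -, hκ₀⟩ := pigeon (univ : Finset (Fin k → Fin D → Fin B))
    ((Fintype.piFinset fun _ : Fin D => range (k * B + 1)) ×ˢ
      ((Fintype.piFinset fun _ : Fin k => Fintype.piFinset fun _ : Fin k =>
        range (k * D * B ^ 2 + 1)) ×ˢ (Fintype.piFinset fun _ : Fin k =>
        range (k * D * B ^ 2 + 1))))
    (fun κ => (ss κ, (fun i j => dt (vv (κ i)) (vv (κ j))), fun i => dt (vv (κ i)) (ss κ)))
    (by
      intro κ _
      have h1 : ∀ d, ss κ d ≤ k * B := by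
        intro d
        have h2 : ss κ d ≤ ∑ _i : Fin k, B := Finset.sum_le_sum fun i _ => (vv_lt _ _).le
        simpa using h2
      have h2 : ∀ i j, dt (vv (κ i)) (vv (κ j)) ≤ D * B ^ 2 := by
        intro i j
        have h3 : dt (vv (κ i)) (vv (κ j)) ≤ ∑ _d : Fin D, B * B :=
          Finset.sum_le_sum fun d _ => Nat.mul_le_mul (vv_lt _ _).le (vv_lt _ _).le
        simpa [sq] using h3
      have h3 : ∀ i, dt (vv (κ i)) (ss κ) ≤ k * D * B ^ 2 := by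
        intro i
        have h4 : dt (vv (κ i)) (ss κ) ≤ ∑ _d : Fin D, B * (k * B) :=
          Finset.sum_le_sum fun d _ => Nat.mul_le_mul (vv_lt _ _).le (h1 d)
        rw [Finset.sum_const, card_univ, Fintype.card_fin, smul_eq_mul] at h4
        calc dt (vv (κ i)) (ss κ) ≤ D * (B * (k * B)) := h4
          _ = k * D * B ^ 2 := by ring
      rw [mem_product, mem_product, Fintype.mem_piFinset, Fintype.mem_piFinset,
        Fintype.mem_piFinset]
      refine ⟨fun d => mem_range.2 (Nat.lt_succ_of_le (h1 d)), fun i => ?_,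
        fun i => mem_range.2 (Nat.lt_succ_of_le (h3 i))⟩
      rw [Fintype.mem_piFinset]
      intro j
      refine mem_range.2 (Nat.lt_succ_of_le ((h2 i j).trans ?_))
      have hk : 1 ≤ k := Nat.one_le_of_lt i.2
      calc D * B ^ 2 = 1 * (D * B ^ 2) := (one_mul _).symm
        _ ≤ k * (D * B ^ 2) := Nat.mul_le_mul_right _ hk
        _ = k * D * B ^ 2 := by ring) hne
  refine ⟨κ₀, ?_⟩
  have hc1 : (univ : Finset (Fin k → Fin D → Fin B)).card = (B ^ D) ^ k := by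
    rw [card_univ]
    simp
  rw [hc1] at hκ₀
  refine hκ₀.trans ?_
  rw [card_product, card_product, Fintype.card_piFinset, Fintype.card_piFinset,
    Fintype.card_piFinset]
  simp only [card_range, prod_const, card_univ, Fintype.card_fin]
  have e1 : (k * D * B ^ 2 + 1) ^ (k * k + k) =
      ((k * D * B ^ 2 + 1) ^ k) ^ k * (k * D * B ^ 2 + 1) ^ k := by
    rw [pow_add, ← pow_mul]
  rw [e1]
  refine Nat.mul_le_mul_left _ ?_
  rw [Nat.card_eq_fintype_card, Fintype.card_subtype]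
  refine Finset.card_le_card ?_
  intro κ hκ
  rw [mem_filter] at hκ ⊢
  refine ⟨mem_univ _, ?_⟩
  have h1 := congrArg Prod.fst hκ.2
  have h2 := congrArg (fun p => p.2.1) hκ.2
  have h3 := congrArg (fun p => p.2.2) hκ.2
  simp only at h1 h2 h3
  intro i j _
  have h2' := fun i j => congrFun (congrFun h2 i) j
  have h3' := fun i => congrFun h3 i
  rw [h1] at h3'
  exact ⟨h2' i j, h2' i i, h2' j j, h3' i, h3' j⟩

/-- Row TEMPLATE: labels `Fin D → Fin B`. Pigeonhole for the data `t = ∑ i, κ i`, `⟨κ i, κ j⟩`,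
`⟨κ i, t⟩` (at most `(k * B) ^ D` times a polynomial of `D` values): `κ` is a clique if it has the
given data for every pair, then `|∑ i, κ i - t| ^ 2 = 0`. `B ≥ k ^ (2 / η)`. -/
theorem template {k : ℕ} (hk : 2 ≤ k) {η : ℝ} (hη : 0 < η) : ∃ B : ℕ, 2 ≤ B ∧ ∃ D₀ : ℕ,
    ∀ D ≥ D₀, ∃ R : Fin k → Fin k → (Fin D → Fin B) → (Fin D → Fin B) → Prop, Uniq R ∧
      ((B : ℝ) ^ D) ^ (k - 1) ≤ ((B : ℝ) ^ D) ^ η * Nat.card {κ : Fin k → Fin D → Fin B // IsCl R κ} := by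
  obtain ⟨B, hB⟩ : ∃ B : ℕ, max 2 ((4 * (k : ℝ)) ^ (1 / η)) ≤ B := exists_nat_ge _
  have hB2 : (2 : ℝ) ≤ B := (le_max_left _ _).trans hB
  have hBk : (4 * (k : ℝ)) ^ (1 / η) ≤ B := (le_max_right _ _).trans hB
  have hB2' : 2 ≤ B := by exact_mod_cast hB2
  have hk0 : (0 : ℝ) < k := by
    have : 0 < k := by omega
    exact_mod_cast this
  have hBη : 4 * (k : ℝ) ≤ (B : ℝ) ^ η := by
    have h1 := Real.rpow_le_rpow (by positivity) hBk hη.le
    rwa [← Real.rpow_mul (by positivity), one_div_mul_cancel hη.ne', Real.rpow_one] at h1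
  -- the polynomial
  have hpoly : ∃ D₀ : ℕ, ∀ D ≥ D₀,
      ((k : ℝ) * D * B ^ 2 + 1) ^ (k * k + k) ≤ (2 : ℝ) ^ D := by
    have h1 := tendsto_pow_const_div_const_pow_of_one_lt (k * k + k) (one_lt_two : (1 : ℝ) < 2)
    have hC : (0 : ℝ) < (k * B ^ 2 + 1) ^ (k * k + k) := by positivity
    have h2 := (h1.eventually (gt_mem_nhds (inv_pos.2 hC))).and
      (Filter.eventually_ge_atTop 1)
    obtain ⟨D₀, hD₀⟩ := Filter.eventually_atTop.1 h2
    refine ⟨D₀, fun D hD => ?_⟩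
    obtain ⟨h3, h4⟩ := hD₀ D hD
    have h5 : (k : ℝ) * D * B ^ 2 + 1 ≤ (k * B ^ 2 + 1) * D := by
      have : (1 : ℝ) ≤ D := by exact_mod_cast h4
      nlinarith
    calc ((k : ℝ) * D * B ^ 2 + 1) ^ (k * k + k)
        ≤ (((k : ℝ) * B ^ 2 + 1) * D) ^ (k * k + k) := by
          gcongr
      _ = ((k : ℝ) * B ^ 2 + 1) ^ (k * k + k) * (D : ℝ) ^ (k * k + k) := mul_pow _ _ _
      _ ≤ 2 ^ D := by
          rw [div_lt_iff₀ (by positivity)] at h3
          have h6 := mul_le_mul_of_nonneg_left h3.le hC.le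
          rwa [← mul_assoc, mul_inv_cancel₀ hC.ne', one_mul] at h6
  obtain ⟨D₀, hD₀⟩ := hpoly
  refine ⟨B, hB2', D₀, fun D hD => ?_⟩
  obtain ⟨κ₀, hκ₀⟩ := count (k := k) (D := D) hB2'
  refine ⟨RR κ₀, uniq_RR hk κ₀, ?_⟩
  obtain ⟨Q, hQ⟩ : ∃ Q : ℕ, Q = Nat.card {κ : Fin k → Fin D → Fin B // IsCl (RR κ₀) κ} :=
    ⟨_, rfl⟩
  rw [← hQ] at hκ₀ ⊢
  have h1 : ((B : ℝ) ^ D) ^ k ≤
      (((k : ℝ) * B + 1) ^ D * (((k : ℝ) * D * B ^ 2 + 1) ^ (k * k + k))) * Q := by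
    exact_mod_cast hκ₀
  have hBD : (0 : ℝ) < (B : ℝ) ^ D := by positivity
  have h2 : ((B : ℝ) ^ D) ^ k = ((B : ℝ) ^ D) ^ (k - 1) * (B : ℝ) ^ D := by
    rw [← pow_succ]
    congr 1
    omega
  have h3 : ((B : ℝ) ^ D) ^ η = ((B : ℝ) ^ η) ^ D := by
    rw [← Real.rpow_natCast ((B : ℝ)) D, ← Real.rpow_mul (by positivity), mul_comm,
      Real.rpow_mul (by positivity), Real.rpow_natCast]
  have h4 : (4 * (k : ℝ)) ^ D ≤ ((B : ℝ) ^ D) ^ η := by
    rw [h3]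
    exact pow_le_pow_left₀ (by positivity) hBη D
  have h5 : ((k : ℝ) * B + 1) ^ D * (((k : ℝ) * D * B ^ 2 + 1) ^ (k * k + k)) ≤
      (4 * (k : ℝ)) ^ D * (B : ℝ) ^ D := by
    have h6 : (k : ℝ) * B + 1 ≤ 2 * (k * B) := by
      have : (1 : ℝ) ≤ k * B := by
        have h7 : (1 : ℝ) ≤ k := by exact_mod_cast (by omega : 1 ≤ k)
        nlinarith
      linarith
    calc ((k : ℝ) * B + 1) ^ D * (((k : ℝ) * D * B ^ 2 + 1) ^ (k * k + k))
        ≤ (2 * (k * B)) ^ D * 2 ^ D := by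
          gcongr
          exact hD₀ D hD
      _ = (4 * (k : ℝ)) ^ D * (B : ℝ) ^ D := by
          rw [← mul_pow, ← mul_pow]
          congr 1
          ring
  have h6 : ((B : ℝ) ^ D) ^ (k - 1) * (B : ℝ) ^ D ≤
      (((B : ℝ) ^ D) ^ η * Q) * (B : ℝ) ^ D := by
    rw [← h2]
    calc ((B : ℝ) ^ D) ^ k ≤ _ := h1
      _ ≤ ((4 * (k : ℝ)) ^ D * (B : ℝ) ^ D) * Q := by gcongr
      _ ≤ (((B : ℝ) ^ D) ^ η * (B : ℝ) ^ D) * Q := by gcongr
      _ = _ := by ring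
  exact le_of_mul_le_mul_right h6 hBD

end CliqueDepth
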