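import Pool.Agent.Lib.MP_678664_lc_AC.PlanDefs

/-! # Row TYP -/

open Finset

namespace CliqueDepth

open SmallDepth

variable {k N n : ℕ} {Λ : Type}

private theorem pl_update (L : Cd k N → Λ) (u : Fin k → Fin N) (κ : Fin k → Λ)
    {J : Finset (Fin k)} {l : Fin k} (hl : l ∉ J) (c : Λ) :
    pl L u (Function.update κ l c) J = pl L u κ J := by
  funext e
  unfold pl
  by_cases h : e.2 = true ∧ e.1.1 ∈ J ∧ e.1.2 = u e.1.1
  · have hne : e.1.1 ≠ l := fun he => hl (he ▸ h.2.1)
    rw [if_pos h, if_pos h, Function.update_of_ne hne]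
  · rw [if_neg h, if_neg h]

/-- The exchange of labels. -/
private def exch (u : Fin k → Fin N) (J : Finset (Fin k))
    (q : (Cd k N → Λ) × (Fin k → Λ)) : (Cd k N → Λ) × (Fin k → Λ) :=
  (pl q.1 u q.2 J, fun j => if j ∈ J then q.1 ((j, u j), true) else q.2 j)

private theorem exch_invol (u : Fin k → Fin N) (J : Finset (Fin k)) :
    Function.Involutive (exch (Λ := Λ) u J) := by
  rintro ⟨L, κ⟩
  unfold exch
  refine Prod.ext ?_ ?_
  · funext e
    simp only [pl]
    by_cases h : e.2 = true ∧ e.1.1 ∈ J ∧ e.1.2 = u e.1.1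
    · rw [if_pos h, if_pos h.2.1]
      congr 1
      refine Prod.ext (Prod.ext rfl h.2.2.symm) h.1.symm
    · rw [if_neg h, if_neg h]
  · funext j
    simp only [pl]
    by_cases h : j ∈ J
    · simp [h]
    · simp [h]

/-- Row TYP: proper parts of the planted labels are typical. -/
theorem typical [Fintype Λ] [DecidableEq Λ] {R : Fin k → Fin k → Λ → Λ → Prop}
    [DecidablePred (IsCl R)] (hR : Uniq R) {J : Finset (Fin k)} (hJ : J ≠ univ)
    (u : Fin k → Fin N) {F : (Cd k N → Λ) → ℝ} (hF : ∀ L, 0 ≤ F L) :
    ∑ κ ∈ univ.filter (IsCl R), ∑ L, F (pl L u κ J) ≤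
      (Fintype.card Λ : ℝ) ^ (k - 1) * ∑ L, F L := by
  obtain ⟨l, hl⟩ : ∃ l, l ∉ J := by
    by_contra h
    push Not at h
    exact hJ (eq_univ_of_forall h)
  have hk : 0 < k := l.pos
  rcases isEmpty_or_nonempty Λ with hΛ | hΛ
  · have hem : (univ : Finset (Fin k → Λ)) = ∅ := by
      refine eq_empty_of_forall_notMem fun κ _ => ?_
      exact hΛ.false (κ l)
    rw [hem, filter_empty, sum_empty]
    have := sum_nonneg fun L (_ : L ∈ (univ : Finset (Cd k N → Λ))) => hF L
    positivity
  · have hc : (0 : ℝ) < Fintype.card Λ := by exact_mod_cast Fintype.card_pos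
    set g : (Fin k → Λ) → ℝ := fun κ => ∑ L, F (pl L u κ J) with hg
    have hg0 : ∀ κ, 0 ≤ g κ := fun κ => sum_nonneg fun L _ => hF _
    -- many copies
    have h1 : (Fintype.card Λ : ℝ) * ∑ κ ∈ univ.filter (IsCl R), g κ ≤ ∑ κ, g κ := by
      calc (Fintype.card Λ : ℝ) * ∑ κ ∈ univ.filter (IsCl R), g κ
          = ∑ κ ∈ univ.filter (IsCl R), ∑ _c : Λ, g κ := by
            rw [mul_sum]
            refine sum_congr rfl fun κ _ => ?_
            rw [sum_const, card_univ, nsmul_eq_mul]
        _ = ∑ q ∈ univ.filter (IsCl R) ×ˢ (univ : Finset Λ), g (Function.update q.1 l q.2) := by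
            rw [sum_product]
            refine sum_congr rfl fun κ _ => sum_congr rfl fun c _ => ?_
            simp only [hg]
            refine sum_congr rfl fun L _ => ?_
            rw [pl_update L u κ hl c]
        _ = ∑ κ ∈ (univ.filter (IsCl R) ×ˢ (univ : Finset Λ)).image
              (fun q => Function.update q.1 l q.2), g κ := by
            rw [sum_image]
            rintro ⟨κ, c⟩ hq ⟨κ', c'⟩ hq' h
            simp only [coe_product, Set.mem_prod, mem_coe, mem_filter, mem_univ, true_and,
              and_true] at hq hq'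
            simp only at h
            have h2 : ∀ i, i ≠ l → κ i = κ' i := by
              intro i hi
              have := congrFun h i
              rwa [Function.update_of_ne hi, Function.update_of_ne hi] at this
            have h3 : c = c' := by
              have := congrFun h l
              rwa [Function.update_self, Function.update_self] at this
            rw [hR κ κ' l hq hq' h2, h3]
        _ ≤ ∑ κ, g κ := sum_le_sum_of_subset_of_nonneg (subset_univ _) fun κ _ _ => hg0 κ
    -- the exchange
    have h2 : ∑ κ, g κ = (Fintype.card Λ : ℝ) ^ k * ∑ L, F L := by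
      calc ∑ κ, g κ = ∑ q : (Cd k N → Λ) × (Fin k → Λ), F (exch u J q).1 := by
            rw [Fintype.sum_prod_type, sum_comm]
            rfl
        _ = ∑ q : (Cd k N → Λ) × (Fin k → Λ), F q.1 :=
            Equiv.sum_comp (exch_invol u J).toPerm fun q => F q.1
        _ = (Fintype.card Λ : ℝ) ^ k * ∑ L, F L := by
            rw [Fintype.sum_prod_type, mul_sum]
            refine sum_congr rfl fun L _ => ?_
            simp only
            rw [sum_const, card_univ, Fintype.card_fun, Fintype.card_fin, nsmul_eq_mul]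
            push_cast
            rfl
    rw [h2] at h1
    have h3 : (Fintype.card Λ : ℝ) ^ k = Fintype.card Λ * (Fintype.card Λ : ℝ) ^ (k - 1) := by
      rw [← pow_succ', Nat.sub_add_cancel hk]
    rw [h3, mul_assoc] at h1
    exact le_of_mul_le_mul_left h1 hc

end CliqueDepth
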