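import Pool.Agent.Lib.MP_678664_lc_AC.Adj
import Pool.Agent.Lib.MP_678664_lc_AC.Eva
import Pool.Agent.Lib.MP_678664_lc_AC.Extra
import Pool.Agent.Lib.MP_678664_lc_AC.Graph
import Pool.Agent.Lib.MP_678664_lc_AC.Hyb
import Pool.Agent.Lib.MP_678664_lc_AC.Probu
import Pool.Agent.Lib.MP_678664_lc_AC.Template
import Pool.Agent.Lib.MP_678664_lc_AC.Typ

/-! # All rows -/

open Finset

namespace CliqueDepth

open SmallDepth

variable {k N n : ℕ} {Λ : Type}

/-- Row HYB, from `graph_clique`: the planted instances decide parity. -/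
theorem hybrid (hk : 2 ≤ k) (φ : Un k N × Bool ↪ Fin n) {R : Fin k → Fin k → Λ → Λ → Prop}
    (L : Cd k N → Λ) {κ : Fin k → Λ} (hκ : IsCl R κ) (G : Cd k N → Bool) (u : Fin k → Fin N)
    (x : Fin k → Bool) :
    (Odd (univ.filter fun i => x i = true).card →
      ¬ (gr φ R (pl L u κ univ) (fl G (Ph u) (Xs u x))).CliqueFree k) ∧
    (¬ Extra R (pl L u κ univ) G u →
      ¬ (gr φ R (pl L u κ univ) (fl G (Ph u) (Xs u x))).CliqueFree k →
      Odd (univ.filter fun i => x i = true).card) :=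
  hybrid_of φ (fun L x => graph_clique hk φ R L x) L hκ G u x

end CliqueDepth
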