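import Pool.Agent.Lib.MP_678664_lc_AC.Eng

/-!
# The planted instances: definitions

A unit `(i, w)` has a type `i < k` and a number `w < N`. It has two coordinates: `((i, w), false)`
says which of its two labels `L ((i, w), b)`, `b : Bool`, it has, and `((i, w), true)` is its
state. The template `R` says which labels of units of the types `i < j` are compatible. Every unit
gives two vertices `((i, w), a)`, `a : Bool`.
-/

open Finset

namespace CliqueDepth

open SmallDepth

/-- Units. -/
abbrev Un (k N : ℕ) := Fin k × Fin N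

/-- Coordinates (and vertices, and pairs of a unit and one of its labels). -/
abbrev Cd (k N : ℕ) := Un k N × Bool

section

variable {k N n : ℕ} {Λ : Type}

/-- The labels `κ` form a clique of the template. -/
def IsCl (R : Fin k → Fin k → Λ → Λ → Prop) (κ : Fin k → Λ) : Prop :=
  ∀ i j, i < j → R i j (κ i) (κ j)

/-- All labels but one determine the clique. -/
def Uniq (R : Fin k → Fin k → Λ → Λ → Prop) : Prop :=
  ∀ (κ κ' : Fin k → Λ) (l : Fin k), IsCl R κ → IsCl R κ' → (∀ i, i ≠ l → κ i = κ' i) → κ = κ'

/-- The label of a unit. -/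
def lab (L : Cd k N → Λ) (x : Cd k N → Bool) (u : Un k N) : Λ := L (u, x (u, false))

/-- Adjacency, from smaller to larger types. The bit of a vertex is the parity of the states of
the units of smaller types. -/
def adjL (R : Fin k → Fin k → Λ → Λ → Prop) (L : Cd k N → Λ) (x : Cd k N → Bool)
    (a b : Un k N × Bool) : Prop :=
  a.1.1 < b.1.1 ∧ R a.1.1 b.1.1 (lab L x a.1) (lab L x b.1) ∧
    ((a.1.1 : ℕ) = 0 → a.2 = false) ∧
    ((a.1.1 : ℕ) + 1 = b.1.1 → b.2 = xor a.2 (x (a.1, true))) ∧
    ((b.1.1 : ℕ) + 1 = k → xor b.2 (x (b.1, true)) = true)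

/-- The graph. -/
def gr (φ : Un k N × Bool ↪ Fin n) (R : Fin k → Fin k → Λ → Λ → Prop) (L : Cd k N → Λ)
    (x : Cd k N → Bool) : SimpleGraph (Fin n) where
  Adj v v' := ∃ a b, ((φ a = v ∧ φ b = v') ∨ (φ b = v ∧ φ a = v')) ∧ adjL R L x a b
  symm := ⟨by
    rintro v v' ⟨a, b, h, h'⟩
    exact ⟨a, b, h.symm.imp And.symm And.symm, h'⟩⟩
  loopless := ⟨by
    rintro v ⟨a, b, h, h'⟩
    have h1 : φ a = φ b := by
      rcases h with h | h
      · exact h.1.trans h.2.symm
      · exact h.2.trans h.1.symm
    have h2 := φ.injective h1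
    have h3 := h'.1
    rw [h2] at h3
    exact lt_irrefl _ h3⟩

/-- The inputs of a circuit. -/
def Γ (φ : Un k N × Bool ↪ Fin n) (R : Fin k → Fin k → Λ → Λ → Prop) (L : Cd k N → Λ)
    (x : Cd k N → Bool) (e : Fin n × Fin n) : Prop := (gr φ R L x).Adj e.1 e.2

/-- The coordinates of the planted units `(i, u i)`. -/
def Ph (u : Fin k → Fin N) : Finset (Cd k N) :=
  univ.image fun e : Fin k × Bool => ((e.1, u e.1), e.2)

/-- The planted units have the labels with number true and the states `x`. -/
def Xs (u : Fin k → Fin N) (x : Fin k → Bool) : Finset (Cd k N) :=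
  (Ph u).filter fun e => e.2 = true → x e.1.1 = true

/-- Number of units with a coordinate in `U`. -/
def touch (U : Finset (Cd k N)) : ℕ := (U.image fun e => e.1).card

/-- The coordinates `X` of the units `(i, u i)`. -/
def Qs (X : Finset (Fin k × Bool)) (u : Fin k → Fin N) : Finset (Cd k N) :=
  X.image fun e => ((e.1, u e.1), e.2)

/-- The types of `X`. -/
def tys (X : Finset (Fin k × Bool)) : Finset (Fin k) := X.image fun e => e.1

/-- The labels `L`, where the labels with number true of the units `(i, u i)`, `i ∈ J`, are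
replaced by `κ i`. -/
def pl (L : Cd k N → Λ) (u : Fin k → Fin N) (κ : Fin k → Λ) (J : Finset (Fin k)) : Cd k N → Λ :=
  fun e => if e.2 = true ∧ e.1.1 ∈ J ∧ e.1.2 = u e.1.1 then κ e.1.1 else L e

/-- There is another clique of labels, if the planted units have the labels with number true. -/
def Extra (R : Fin k → Fin k → Λ → Λ → Prop) (L : Cd k N → Λ) (G : Cd k N → Bool)
    (u : Fin k → Fin N) : Prop :=
  ∃ w : Fin k → Fin N, w ≠ u ∧
    IsCl R fun i => L ((i, w i), if w i = u i then true else G ((i, w i), false))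

end

end CliqueDepth
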